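import Pool.Agent.Zk20.QT.Fam

/-!
The L-functions of degree `i` (helper20).
-/

set_option autoImplicit false
set_option maxHeartbeats 4000000

open Complex Filter Topology Set
open H385 (ZI nrm)
open H370 (zset mult NN Nd Ns)
open Pool.Agent.H304R3.HK (bb ee UH tc)
open Pool.Agent.W164.RC
open Pool.Agent.W354.PK (HCk LK aK bK psik uh_psik)
open Pool.Agent.N880.QI (nz sy om Att ne_zero_of one_le_nz nz_tc)
open Pool.Agent.N880.QK (LJ QD)
open Pool.Agent.H82R3.EK (cnt strip line mult_prod cnt_prod NN_eq Ns_le)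

namespace Pool.Agent.Zk20.QT

/-! ### shifts -/

/-- zeros in the strip belonging to the degree `i` -/
def zerosI (i : ℕ) (F : ℂ → ℂ) (T : ℝ) : Set ℂ :=
  {s : ℂ | (i : ℝ) / 2 < s.re ∧ s.re < (i : ℝ) / 2 + 1 ∧ T < s.im ∧ s.im ≤ 2 * T ∧ F s = 0}

/-- their number -/
noncomputable def NzI (i : ℕ) (F : ℂ → ℂ) (T : ℝ) : ℕ := ∑ᶠ s ∈ zerosI i F T, analyticOrderNatAt F s

/-- those on the line -/
noncomputable def N₀I (i : ℕ) (F : ℂ → ℂ) (T : ℝ) : ℕ :=
  ∑ᶠ s ∈ {s : ℂ | s ∈ zerosI i F T ∧ s.re = ((i : ℝ) + 1) / 2}, analyticOrderNatAt F s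

section shift
variable (i : ℕ)

lemma order_shiftI (L : ℂ → ℂ) (s : ℂ) :
    analyticOrderNatAt (fun z => L (z - (i : ℂ) / 2)) (s + (i : ℂ) / 2) = analyticOrderNatAt L s := by
  have hg : AnalyticAt ℂ (fun z : ℂ => z - (i : ℂ) / 2) (s + (i : ℂ) / 2) := by fun_prop
  have hd : deriv (fun z : ℂ => z - (i : ℂ) / 2) (s + (i : ℂ) / 2) ≠ 0 := by
    simp
  have h := analyticOrderAt_comp_of_deriv_ne_zero (f := L) hg hd
  unfold analyticOrderNatAt
  have h2 : (fun z : ℂ => L (z - (i : ℂ) / 2)) = L ∘ (fun z : ℂ => z - (i : ℂ) / 2) := rfl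
  rw [h2, h]
  congr 2
  ring

lemma re_half (s : ℂ) : (s + (i : ℂ) / 2 : ℂ).re = s.re + (i : ℝ) / 2 := by
  have : ((i : ℂ) / 2) = (((i : ℝ) / 2 : ℝ) : ℂ) := by push_cast; rfl
  rw [this, Complex.add_re, Complex.ofReal_re]

lemma im_half (s : ℂ) : (s + (i : ℂ) / 2 : ℂ).im = s.im := by
  have : ((i : ℂ) / 2) = (((i : ℝ) / 2 : ℝ) : ℂ) := by push_cast; rfl
  rw [this, Complex.add_im, Complex.ofReal_im, add_zero]

lemma re_half' (s : ℂ) : (s - (i : ℂ) / 2 : ℂ).re = s.re - (i : ℝ) / 2 := by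
  have : ((i : ℂ) / 2) = (((i : ℝ) / 2 : ℝ) : ℂ) := by push_cast; rfl
  rw [this, Complex.sub_re, Complex.ofReal_re]

lemma mem_shiftI (L : ℂ → ℂ) (T : ℝ) (s : ℂ) :
    s + (i : ℂ) / 2 ∈ zerosI i (fun z => L (z - (i : ℂ) / 2)) T ↔ s ∈ zset L T (2 * T) := by
  have h3 : s + (i : ℂ) / 2 - (i : ℂ) / 2 = s := by ring
  constructor
  · rintro ⟨a, b, c, d, e⟩
    rw [re_half] at a b
    rw [im_half] at c d
    simp only [h3] at e
    exact ⟨by linarith, by linarith, c, d, e⟩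
  · rintro ⟨a, b, c, d, e⟩
    refine ⟨by rw [re_half]; linarith, by rw [re_half]; linarith, by rw [im_half]; exact c,
      by rw [im_half]; exact d, ?_⟩
    simp only [h3]
    exact e

lemma zeros_shiftI (L : ℂ → ℂ) (T : ℝ) :
    zerosI i (fun z => L (z - (i : ℂ) / 2)) T = (fun s : ℂ => s + (i : ℂ) / 2) '' zset L T (2 * T) := by
  ext s
  constructor
  · intro hs
    refine ⟨s - (i : ℂ) / 2, ?_, by ring⟩
    rw [← mem_shiftI i]
    convert hs using 1
    ring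
  · rintro ⟨t, ht, rfl⟩
    exact (mem_shiftI i L T t).mpr ht

lemma inj_shiftI : Function.Injective (fun s : ℂ => s + (i : ℂ) / 2) := fun a b h => by
  simpa using h

lemma Nz_shiftI (L : ℂ → ℂ) (T : ℝ) :
    NzI i (fun z => L (z - (i : ℂ) / 2)) T = NN L T (2 * T) := by
  unfold NzI NN
  rw [zeros_shiftI i, finsum_mem_image (inj_shiftI i).injOn]
  refine finsum_congr fun s => finsum_congr fun _ => ?_
  exact order_shiftI i L s

lemma N₀_shiftI (L : ℂ → ℂ) (T : ℝ) :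
    N₀I i (fun z => L (z - (i : ℂ) / 2)) T = cnt L (line T (2 * T)) := by
  unfold N₀I cnt
  have h : {s : ℂ | s ∈ zerosI i (fun z => L (z - (i : ℂ) / 2)) T ∧ s.re = ((i : ℝ) + 1) / 2} =
      (fun s : ℂ => s + (i : ℂ) / 2) '' {s : ℂ | s ∈ line T (2 * T) ∧ L s = 0} := by
    ext s
    constructor
    · rintro ⟨h1, h2⟩
      rw [zeros_shiftI i] at h1
      obtain ⟨t, ⟨_, _, h3, h4, h5⟩, rfl⟩ := h1
      refine ⟨t, ⟨⟨?_, h3, h4⟩, h5⟩, rfl⟩
      simp only [re_half] at h2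
      linarith
    · rintro ⟨t, ⟨⟨h1, h3, h4⟩, h5⟩, rfl⟩
      refine ⟨(mem_shiftI i L T t).mpr ⟨by rw [h1]; norm_num, by rw [h1]; norm_num, h3, h4, h5⟩, ?_⟩
      simp only [re_half]
      rw [h1]
      ring
  rw [h, finsum_mem_image (inj_shiftI i).injOn]
  refine finsum_congr fun s => finsum_congr fun _ => ?_
  exact order_shiftI i L s

end shift

/-! ### a factor without zeros -/

lemma order_unit {F U : ℂ → ℂ} {s : ℂ} (hF : AnalyticAt ℂ F s) (hU : AnalyticAt ℂ U s)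
    (h0 : U s ≠ 0) : analyticOrderNatAt (fun z => F z * U z) s = analyticOrderNatAt F s := by
  have h : (fun z => F z * U z) = F * U := rfl
  unfold analyticOrderNatAt
  rw [h, analyticOrderAt_mul hF hU, hU.analyticOrderAt_eq_zero.2 h0, add_zero]

lemma counts_unit {F U : ℂ → ℂ} (hF : ∀ s : ℂ, 0 < s.im → AnalyticAt ℂ F s)
    (hU : Differentiable ℂ U) (h0 : ∀ s : ℂ, 0 < s.re → U s ≠ 0) {T : ℝ} (hT : 0 ≤ T) :
    zset (fun z => F z * U z) T (2 * T) = zset F T (2 * T) ∧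
    NN (fun z => F z * U z) T (2 * T) = NN F T (2 * T) ∧
    cnt (fun z => F z * U z) (line T (2 * T)) = cnt F (line T (2 * T)) := by
  have hz : zset (fun z => F z * U z) T (2 * T) = zset F T (2 * T) := by
    ext s
    constructor
    · rintro ⟨h1, h2, h3, h4, h5⟩
      exact ⟨h1, h2, h3, h4, (mul_eq_zero.1 h5).resolve_right (h0 s h1)⟩
    · rintro ⟨h1, h2, h3, h4, h5⟩
      refine ⟨h1, h2, h3, h4, ?_⟩
      show F s * U s = 0
      rw [h5, zero_mul]
  refine ⟨hz, ?_, ?_⟩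
  · unfold NN
    rw [hz]
    refine finsum_mem_congr rfl fun s hs => ?_
    exact order_unit (hF s (by have := hs.2.2.1; linarith)) (hU.analyticAt s) (h0 s hs.1)
  · unfold cnt
    have hl : {s : ℂ | s ∈ line T (2 * T) ∧ (fun z => F z * U z) s = 0} =
        {s : ℂ | s ∈ line T (2 * T) ∧ F s = 0} := by
      ext s
      constructor
      · rintro ⟨h1, h5⟩
        refine ⟨h1, (mul_eq_zero.1 h5).resolve_right (h0 s ?_)⟩
        rw [h1.1]; norm_num
      · rintro ⟨h1, h5⟩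
        refine ⟨h1, ?_⟩
        show F s * U s = 0
        rw [h5, zero_mul]
    rw [hl]
    refine finsum_mem_congr rfl fun s hs => ?_
    refine order_unit (hF s (by have := hs.1.2.1; linarith)) (hU.analyticAt s) (h0 s ?_)
    rw [hs.1.1]; norm_num

/-! ### uniqueness -/

lemma eq_off {s0 : ℂ} {F G : ℂ → ℂ} (hF : ∀ s : ℂ, s ≠ s0 → AnalyticAt ℂ F s)
    (hG : ∀ s : ℂ, s ≠ s0 → AnalyticAt ℂ G s) (h : ∀ s : ℂ, s0.re < s.re → F s = G s) :
    ∀ s : ℂ, s ≠ s0 → F s = G s := by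
  have hpre : IsPreconnected ({s0}ᶜ : Set ℂ) :=
    (isConnected_compl_singleton_of_one_lt_rank (by rw [Complex.rank_real_complex]; norm_num) s0).isPreconnected
  have hev : F =ᶠ[𝓝 (s0 + 1)] G := by
    have hU : {s : ℂ | s0.re < s.re} ∈ 𝓝 (s0 + 1) :=
      (isOpen_lt continuous_const Complex.continuous_re).mem_nhds (by simp)
    filter_upwards [hU] with s hs
    exact h s hs
  have h4 := AnalyticOnNhd.eqOn_of_preconnected_of_eventuallyEq (U := ({s0}ᶜ : Set ℂ))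
    (fun s hs => hF s hs) (fun s hs => hG s hs) hpre (z₀ := s0 + 1) (by simp) hev
  exact fun s hs => h4 hs

lemma counts_congr {i : ℕ} {F G : ℂ → ℂ} (h : ∀ s : ℂ, s ≠ (i : ℂ) / 2 + 1 → F s = G s) {T : ℝ}
    (hT : 0 ≤ T) : zerosI i F T = zerosI i G T ∧ NzI i F T = NzI i G T ∧ N₀I i F T = N₀I i G T := by
  have hne : ∀ s : ℂ, 0 < s.im → s ≠ (i : ℂ) / 2 + 1 := by
    rintro s hs rfl
    have h2 : ((i : ℂ) / 2 + 1).im = 0 := by
      have : ((i : ℂ) / 2 + 1) = (((i : ℝ) / 2 + 1 : ℝ) : ℂ) := by push_cast; rfl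
      rw [this, Complex.ofReal_im]
    rw [h2] at hs
    exact lt_irrefl _ hs
  have hev : ∀ s : ℂ, 0 < s.im → F =ᶠ[𝓝 s] G := by
    intro s hs
    have hU : {s : ℂ | 0 < s.im} ∈ 𝓝 s :=
      (isOpen_lt continuous_const Complex.continuous_im).mem_nhds hs
    filter_upwards [hU] with z hz
    exact h z (hne z hz)
  have hz : zerosI i F T = zerosI i G T := by
    ext s
    constructor
    · rintro ⟨h1, h2, h3, h4, h5⟩
      exact ⟨h1, h2, h3, h4, by rw [← h s (hne s (by linarith))]; exact h5⟩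
    · rintro ⟨h1, h2, h3, h4, h5⟩
      exact ⟨h1, h2, h3, h4, by rw [h s (hne s (by linarith))]; exact h5⟩
  have ho : ∀ s : ℂ, 0 < s.im → analyticOrderNatAt F s = analyticOrderNatAt G s := by
    intro s hs
    unfold analyticOrderNatAt
    rw [analyticOrderAt_congr (hev s hs)]
  refine ⟨hz, ?_, ?_⟩
  · unfold NzI
    rw [hz]
    exact finsum_mem_congr rfl fun s hs => ho s (by have := hs.2.2.1; linarith)
  · unfold N₀I
    rw [hz]
    exact finsum_mem_congr rfl fun s hs => ho s (by have := hs.1.2.2.1; linarith)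

/-! ### the L-function of degree `i` -/

section
variable {J : Type} [Fintype J]

/-- the value at the prime `z` times `N(z)^{-s}`, subtracted from one -/
noncomputable def lf (a b : ℕ) (χ : ZI →* ℂ) (tw : Bool) (m z : ZI) (s : ℂ) : ℂ :=
  1 - χ z * tc z ^ a * (starRingEnd ℂ) (tc z) ^ b * (bif tw then ((sy m z : ℝ) : ℂ) else 1) *
    ((Zsqrtd.norm z : ℤ) : ℂ) ^ (-s)

/-- bad primes -/
def bad (N : ℕ) (m : ZI) : ℕ := N * (Zsqrtd.norm m).natAbs

/-- the continuation of the Euler product -/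
structure IsC (i N : ℕ) (a b : J → ℕ) (χ : J → ZI →* ℂ) (tw : J → Bool) (m : ZI) (L : ℂ → ℂ) : Prop where
  an : ∀ s : ℂ, s ≠ (i : ℂ) / 2 + 1 → AnalyticAt ℂ L s
  mer : MeromorphicAt L ((i : ℂ) / 2 + 1)
  eul : ∀ s : ℂ, (i : ℝ) / 2 + 1 < s.re →
    HasProd (fun p : {p : Nat.Primes // ¬ (p : ℕ) ∣ bad N m} =>
      (∏ z ∈ Ip (p : Nat.Primes), ∏ j, lf (a j) (b j) (χ j) (tw j) m z s)⁻¹) (L s)

/-- the local factor -/
theorem epf_lf {i a b N : ℕ} (hab : a + b = i) (h2 : 2 ∣ N) {q : ZI} {χ : ZI →* ℂ}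
    (H : HT a b q χ) (hq : q ∣ (N : ZI)) (tw : Bool) {m : ZI} (hm : ¬ IsSquare m) {d : ZI}
    {Θ : ZI →* ℂ} (hd : HCk (kk a b) d Θ)
    (hΘ : bif tw then Att (xc (cc a b) χ) (sc (cc a b) m) Θ else Θ = xc (cc a b) χ)
    {p : ℕ} (hp : p.Prime) (hpb : ¬ p ∣ bad N m) (s : ℂ) :
    epf ((bad N m ^ 2 : ℕ) : ZI) (psik (kk a b) Θ) (s - (i : ℂ) / 2) p =
      ∏ z ∈ Ip p, (lf a b χ tw m z s)⁻¹ := by
  have hpb2 : ¬ p ∣ bad N m ^ 2 := fun h => hpb (hp.dvd_of_dvd_pow h)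
  have h2b : 2 ∣ bad N m ^ 2 := (h2.trans (dvd_mul_right _ _)).trans (dvd_pow_self _ two_ne_zero)
  rw [epf_good h2b _ _ hp hpb2 (cc a b)]
  refine Finset.prod_congr rfl fun z hz => ?_
  obtain ⟨z1, z2, z3, z4⟩ := Ip_spec hp hz
  have hzN : ¬ z ∣ (N : ZI) := fun h => hpb (((Ip_dvd hp hz).1 h).trans (dvd_mul_right _ _))
  have hz2 : ¬ z ∣ 2 := by
    intro h
    apply hzN
    refine h.trans ?_
    have : (2 : ZI) = ((2 : ℕ) : ZI) := by norm_num
    rw [this]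
    exact nat_dvd h2
  have hzq : ¬ z ∣ q := fun h => hzN (h.trans hq)
  have hzm : ¬ z ∣ m := by
    intro h
    apply hpb
    have h5 : (Zsqrtd.norm z).natAbs ∣ (Zsqrtd.norm m).natAbs := by
      obtain ⟨w, rfl⟩ := h
      rw [Zsqrtd.norm_mul, Int.natAbs_mul]
      exact dvd_mul_right _ _
    have h6 : (Zsqrtd.norm z).natAbs = p ^ dg p := z3
    rw [h6] at h5
    exact ((dvd_pow_self p (dg_pos p)).trans h5).trans (dvd_mul_left _ _)
  have hval : Θ (sc (cc a b) z) = χ z * (bif tw then ((sy m z : ℝ) : ℂ) else 1) := by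
    cases tw
    · simp only [cond_false] at hΘ ⊢
      rw [hΘ, xc_apply, sc_sc, mul_one]
    · simp only [cond_true] at hΘ ⊢
      have h7 := val_tw H.hck (m := sc (cc a b) m) (fun h => hm (sc_sq.1 h)) hd hΘ
        (z := sc (cc a b) z) (sc_prime z2) ?_ ?_ ?_
      · rw [h7, xc_apply, sc_sc, sc_sy]
      · intro h
        apply hz2
        have e : (2 : ZI) = ((2 : ℕ) : ZI) := by norm_num
        rw [e, ← sc_nat (cc a b), sc_dvd] at h
        rw [e]
        exact h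
      · rw [sc_dvd]; exact hzq
      · rw [sc_dvd]; exact hzm
  have h8 := val_eq (a := a) (b := b) z2.ne_zero hval
  have h9 := cpow_norm hp hz i s
  unfold lf
  rw [h8, ← h9, hab, mul_assoc]

end

end Pool.Agent.Zk20.QT
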