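import Pool.Agent.Zk20.QT.Pole
import Pool.Agent.N880.QK.All
import Pool.Agent.N880.QK.Art
import Pool.Agent.N768.QI.Local

/-!
Hecke characters of `ℚ(i)` of arbitrary type, twisted by quadratic characters (helper20).
-/

set_option autoImplicit false
set_option maxHeartbeats 4000000

open Complex Filter Topology Set
open H385 (ZI nrm)
open H370 (zset mult NN Nd Ns)
open Pool.Agent.H304R3.HK (bb ee UH tc)
open Pool.Agent.W164.RC
open Pool.Agent.W354.PK (HCk LK aK bK psik uh_psik)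
open Pool.Agent.N880.QI (nz sy om Att ne_zero_of one_le_nz nz_tc)
open Pool.Agent.N880.QK (LJ QD)
open Pool.Agent.N768.QI (sq_split sy_mul_sq star_dvd_iff sy_star att_red)
open Pool.Agent.H82R3.EK (cnt strip line mult_prod cnt_prod NN_eq Ns_le)

namespace Pool.Agent.Zk20.QT

/-! ### conjugation -/

/-- conjugation, if `c` -/
def sc (c : Bool) (z : ZI) : ZI := bif c then star z else z

lemma sc_sc (c : Bool) (z : ZI) : sc c (sc c z) = z := by
  cases c
  · rfl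
  · exact star_star z

lemma sc_dvd {c : Bool} {z w : ZI} : sc c z ∣ sc c w ↔ z ∣ w := by
  cases c
  · rfl
  · exact star_dvd_iff

lemma sc_nat (c : Bool) (n : ℕ) : sc c (n : ZI) = n := by
  cases c
  · rfl
  · show star (n : ZI) = n
    ext <;> simp

lemma sc_mul (c : Bool) (z w : ZI) : sc c (z * w) = sc c z * sc c w := by
  cases c
  · rfl
  · show star (z * w) = star z * star w
    rw [star_mul, mul_comm]

lemma sc_zero (c : Bool) : sc c 0 = 0 := by
  cases c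
  · rfl
  · exact star_zero _

lemma sc_ne {c : Bool} {z : ZI} (h : z ≠ 0) : sc c z ≠ 0 := by
  intro h2
  apply h
  rw [← sc_sc c z, h2, sc_zero]

lemma sc_one (c : Bool) : sc c 1 = 1 := by
  cases c
  · rfl
  · exact star_one _

lemma sc_unit {c : Bool} {z : ZI} : IsUnit (sc c z) ↔ IsUnit z := by
  constructor
  · intro h
    have h1 : sc c z ∣ 1 := isUnit_iff_dvd_one.1 h
    rw [← sc_one c, sc_dvd] at h1
    exact isUnit_iff_dvd_one.2 h1
  · intro h
    have h1 : z ∣ 1 := isUnit_iff_dvd_one.1 h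
    rw [← sc_dvd (c := c), sc_one] at h1
    exact isUnit_iff_dvd_one.2 h1

lemma sc_prime {c : Bool} {z : ZI} (h : Prime z) : Prime (sc c z) := by
  refine ⟨sc_ne h.ne_zero, fun h2 => h.not_isUnit (sc_unit.1 h2), fun a b hab => ?_⟩
  have h3 : z ∣ sc c a * sc c b := by
    rw [← sc_mul, ← sc_dvd (c := c), sc_sc]
    exact hab
  rcases h.dvd_or_dvd h3 with h4 | h4
  · left
    rw [← sc_dvd (c := c), sc_sc]
    exact h4
  · right
    rw [← sc_dvd (c := c), sc_sc]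
    exact h4

lemma sc_sq {c : Bool} {z : ZI} : IsSquare (sc c z) ↔ IsSquare z := by
  constructor
  · rintro ⟨w, hw⟩
    exact ⟨sc c w, by rw [← sc_mul, ← hw, sc_sc]⟩
  · rintro ⟨w, rfl⟩
    exact ⟨sc c w, sc_mul c w w⟩

lemma sc_sy (c : Bool) (m z : ZI) : sy (sc c m) (sc c z) = sy m z := by
  cases c
  · rfl
  · exact sy_star m z

lemma sc_nz (c : Bool) (z : ZI) : nz (sc c z) = nz z := by
  cases c
  · rfl
  · show nz (star z) = nz z
    unfold nz
    congr 1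
    rw [Zsqrtd.norm_def, Zsqrtd.norm_def]
    simp

lemma sc_om (c : Bool) (X : ℝ) (m : ZI) : om X (sc c m) = om X m := by
  unfold om
  rw [sc_nz]

lemma tc_sc (c : Bool) (z : ZI) : tc (sc c z) = if c = true then (starRingEnd ℂ) (tc z) else tc z := by
  cases c
  · rfl
  · show tc (star z) = _
    rw [if_pos rfl]
    simp [tc]

lemma sc_Ip {c : Bool} {p : ℕ} (hp : p.Prime) {z : ZI} (hz : z ∈ Ip p) : sc c z ∈ Ip p := by
  cases c
  · exact hz
  · exact star_mem_Ip hp hz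

/-! ### the L-functions -/

open Classical in
/-- the L-function of a character of type `k`, possibly principal -/
noncomputable def LP (k : ℕ) (q : ZI) (χ : ZI →* ℂ) : ℂ → ℂ :=
  if k = 0 ∧ IsUnit q then ZF else LJ k χ

lemma LP_pos {q : ZI} (hq : IsUnit q) (χ : ZI →* ℂ) : LP 0 q χ = ZF := by
  unfold LP
  rw [if_pos ⟨rfl, hq⟩]

lemma LP_neg {k : ℕ} {q : ZI} (h : ¬ (k = 0 ∧ IsUnit q)) (χ : ZI →* ℂ) : LP k q χ = LJ k χ := by
  unfold LP
  rw [if_neg h]

lemma nice_LP {k : ℕ} {q : ZI} {χ : ZI →* ℂ} (H : HCk k q χ) : Nice (LP k q χ) := by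
  by_cases h : k = 0 ∧ IsUnit q
  · obtain ⟨rfl, hu⟩ := h
    rw [LP_pos hu]
    exact nice_ZF
  · rw [LP_neg h]
    obtain ⟨A, hA, hg⟩ := Pool.Agent.N880.QK.good_main k
    obtain ⟨g1, -, g3⟩ := hg q χ H (fun hk hu => h ⟨hk, hu⟩)
    exact Nice.of_good (by norm_num) hA (Pool.Agent.H304R3.HK.one_le_norm_tc H.q0) g3
      (fun s _ => g1.analyticAt s) (g1.analyticAt 1).meromorphicAt

lemma diff_LP {k : ℕ} {q : ZI} {χ : ZI →* ℂ} (H : HCk k q χ) (hk : k ≠ 0) :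
    Differentiable ℂ (LP k q χ) := by
  rw [LP_neg (fun h => hk h.1)]
  obtain ⟨A, hA, hg⟩ := Pool.Agent.N880.QK.good_main k
  exact (hg q χ H (fun h => absurd h hk)).1

lemma psik_unit {q : ZI} {χ : ZI →* ℂ} (H : HCk 0 q χ) (hu : IsUnit q) : psik 0 χ = h1 := by
  have hχ : ∀ z, χ z = 1 := by
    intro z
    rw [H.per z 1 (hu.dvd), map_one]
  ext z
  show (if z = 0 then 0 else χ z * (tc z / (‖tc z‖ : ℂ)) ^ 0) =
    if z = 0 then 0 else (1 : ZI →* ℂ) z * (tc z / (‖tc z‖ : ℂ)) ^ 0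
  rw [hχ]
  rfl

/-- the Euler product -/
theorem prod_LP {k : ℕ} {q : ZI} {χ : ZI →* ℂ} (H : HCk k q χ) {M : ZI} (hM : M ≠ 0)
    (h2 : two2 ∣ M) {s : ℂ} (hs : 1 < s.re) :
    HasProd (fun p : Nat.Primes => epf M (psik k χ) s p) (LP k q χ s * Cq M (psik k χ) s) := by
  by_cases h : k = 0 ∧ IsUnit q
  · obtain ⟨rfl, hu⟩ := h
    rw [LP_pos hu, psik_unit H hu]
    exact prod_ZF hM h2 hs
  · rw [LP_neg h]
    obtain ⟨A, hA, hg⟩ := Pool.Agent.N880.QK.good_main k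
    obtain ⟨-, g2, -⟩ := hg q χ H (fun hk hu => h ⟨hk, hu⟩)
    exact hasProd_epf hM h2 (uh_psik H) (by linarith) (g2 s hs)

/-! ### the local factors -/

lemma nat_ne {n : ℕ} (h : n ≠ 0) : (n : ZI) ≠ 0 := by
  intro h2
  apply h
  have := congrArg Zsqrtd.re h2
  simpa using this

lemma nat_dvd {a b : ℕ} (h : a ∣ b) : (a : ZI) ∣ (b : ZI) := by
  obtain ⟨c, rfl⟩ := h
  exact ⟨c, by push_cast; ring⟩

lemma Ip_dvd {p : ℕ} (hp : p.Prime) {z : ZI} (hz : z ∈ Ip p) {N : ℕ} : z ∣ (N : ZI) ↔ p ∣ N := by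
  obtain ⟨-, -, h3, h4⟩ := Ip_spec hp hz
  constructor
  · rintro ⟨c, hc⟩
    have h5 : nrm (N : ZI) = nrm z * nrm c := by
      rw [hc]
      unfold nrm
      rw [Zsqrtd.norm_mul, Int.natAbs_mul]
    have h6 : nrm (N : ZI) = N * N := by
      unfold nrm
      rw [Zsqrtd.norm_natCast]
      simp [Int.natAbs_mul]
    rw [h6, h3] at h5
    have h7 : p ∣ N * N := by
      rw [h5]
      exact (dvd_pow_self p (dg_pos p)).trans (dvd_mul_right _ _)
    exact (hp.dvd_mul.1 h7).elim id id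
  · intro h
    exact h4.trans (nat_dvd h)

/-- at the bad primes -/
lemma epf_bad {N : ℕ} (h : ZI →* ℂ) (s : ℂ) {p : ℕ} (hp : p.Prime) (hpN : p ∣ N) :
    epf (N : ZI) h s p = 1 := by
  classical
  unfold epf
  split_ifs with h3
  · rfl
  · rw [Finset.filter_false_of_mem, Finset.prod_empty]
    intro z hz hzN
    exact hzN ((Ip_dvd hp hz).2 hpN)

/-- at the good primes -/
lemma epf_good {N : ℕ} (h2 : 2 ∣ N) (h : ZI →* ℂ) (s : ℂ) {p : ℕ} (hp : p.Prime) (hpN : ¬ p ∣ N)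
    (c : Bool) :
    epf (N : ZI) h s p = ∏ z ∈ Ip p, (1 - h (sc c z) * ((p : ℂ) ^ (-s)) ^ dg p)⁻¹ := by
  classical
  have hp2 : p ≠ 2 := by
    rintro rfl
    exact hpN h2
  unfold epf
  rw [if_neg hp2, Finset.filter_true_of_mem]
  · refine Finset.prod_bij' (fun z _ => sc c z) (fun z _ => sc c z) (fun z hz => sc_Ip hp hz)
      (fun z hz => sc_Ip hp hz) (fun z _ => sc_sc c z) (fun z _ => sc_sc c z) (fun z _ => ?_)
    rw [sc_sc]
  · intro z hz hzN
    exact hpN ((Ip_dvd hp hz).1 hzN)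

/-- the value of the twisted character -/
theorem val_tw {k : ℕ} {q : ZI} {χ : ZI →* ℂ} (H : HCk k q χ) {m : ZI} (hm : ¬ IsSquare m)
    {d : ZI} {ψ : ZI →* ℂ} (Hd : HCk k d ψ) (hatt : Att χ m ψ) {z : ZI} (hz : Prime z)
    (h2 : ¬ z ∣ 2) (hq : ¬ z ∣ q) (hzm : ¬ z ∣ m) : ψ z = χ z * ((sy m z : ℝ) : ℂ) := by
  have hm0 := ne_zero_of hm
  obtain ⟨j, b, hj, hb, hjb⟩ := sq_split _ m rfl hm0
  obtain ⟨C, hC, hchar⟩ := Pool.Agent.N880.QK.char_main k q χ H
  have h3 := ((hchar j hj).2 d ψ Hd (att_red hjb hb hatt)).1 z hz h2 hq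
  have h4 : ¬ z ∣ b := by
    intro h
    apply hzm
    rw [hjb]
    exact (h.trans (dvd_pow_self b two_ne_zero)).mul_left _
  rw [h3, hjb, sy_mul_sq hz h4]

end Pool.Agent.Zk20.QT
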