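import Pool.Agent.Zk20.QT.Loc
import Pool.Agent.N880.QI.All

/-!
Averages over all quadratic twists (helper20).
-/

set_option autoImplicit false
set_option maxHeartbeats 4000000

open Complex Filter Topology Set
open H385 (ZI nrm)
open H370 (zset mult NN Nd Ns)
open Pool.Agent.H304R3.HK (bb ee UH tc)
open Pool.Agent.W164.RC
open Pool.Agent.W354.PK (HCk LK aK bK psik uh_psik)
open Pool.Agent.N880.QI (nz sy om Att ne_zero_of one_le_nz nz_tc)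
open Pool.Agent.N880.QK (LJ QD)

namespace Pool.Agent.Zk20.QT

lemma om_nonneg (X : ℝ) (m : ZI) : 0 ≤ om X m := (Real.exp_pos _).le

/-- the total weight -/
lemma weight_le {X : ℝ} (hX : 0 < X) (S : Finset ZI) (hS : ∀ m ∈ S, m ≠ 0) :
    ∑ m ∈ S, om X m ≤ X := by
  classical
  obtain ⟨h1, h2, -⟩ := Pool.Agent.N880.QI.gs_main.1 (1 / X) (by positivity)
  rw [one_div_one_div] at h2
  refine le_trans ?_ h2
  have h3 : ∑ m ∈ S, om X m = ∑ m ∈ S,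
      (if m = 0 then 0 else Real.exp (-(Real.pi * (nz m * (1 / X))))) := by
    refine Finset.sum_congr rfl fun m hm => ?_
    rw [if_neg (hS m hm)]
    unfold om
    rw [div_eq_mul_one_div]
  rw [h3]
  refine Summable.sum_le_tsum S (fun m _ => ?_) ?_
  · split_ifs
    · exact le_rfl
    · exact (Real.exp_pos _).le
  · refine Summable.of_nonneg_of_le (fun m => ?_) (fun m => ?_) h1
    · split_ifs
      · exact le_rfl
      · exact (Real.exp_pos _).le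
    · split_ifs
      · exact (Real.exp_pos _).le
      · exact le_rfl

lemma log_ge_two {X : ℝ} (hX : 10 ≤ X) : 2 ≤ Real.log X := by
  rw [Real.le_log_iff_exp_le (by linarith)]
  have h1 := Real.exp_one_lt_d9
  have h2 : Real.exp 2 = Real.exp 1 * Real.exp 1 := by rw [← Real.exp_add]; norm_num
  have h3 := Real.exp_pos 1
  rw [h2]
  nlinarith

lemma T_ge {X T : ℝ} (hX : 10 ≤ X) (hT : (Real.log X) ^ 2 ≤ T) : 4 ≤ T := by
  have := log_ge_two hX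
  nlinarith

/-- a fixed function contributes little -/
lemma small_part {F : ℂ → ℂ} (hF : Nice F) : ∃ C : ℝ, 0 < C ∧
    ∀ (η X T : ℝ) (S : Finset ZI), 10 ≤ X → (Real.log X) ^ 2 ≤ T → T ≤ X ^ η → (∀ m ∈ S, m ≠ 0) →
    ∑ m ∈ S, om X m * (NN F T (2 * T) : ℝ) ≤ C * η * (X * T * Real.log X) := by
  obtain ⟨C, hC, hc⟩ := hF.cnt
  refine ⟨C, hC, fun η X T S hX hT1 hT2 hS => ?_⟩
  have hT := T_ge hX hT1
  have hX0 : 0 < X := by linarith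
  have h1 := hc T (by linarith)
  have h2 : Real.log T ≤ η * Real.log X := by
    have := Real.log_le_log (by linarith) hT2
    rwa [Real.log_rpow hX0] at this
  have h3 := weight_le hX0 S hS
  rw [← Finset.sum_mul]
  have h4 : (NN F T (2 * T) : ℝ) ≤ C * (T * (η * Real.log X)) :=
    h1.trans (mul_le_mul_of_nonneg_left (mul_le_mul_of_nonneg_left h2 (by linarith)) hC.le)
  calc (∑ m ∈ S, om X m) * (NN F T (2 * T) : ℝ) ≤ X * (NN F T (2 * T) : ℝ) :=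
        mul_le_mul_of_nonneg_right h3 (Nat.cast_nonneg _)
    _ ≤ X * (C * (T * (η * Real.log X))) := mul_le_mul_of_nonneg_left h4 hX0.le
    _ = _ := by ring

/-- the statement for one family -/
def Body (κ : ℝ) (k : ℕ) (ψ₀ : ZI →* ℂ) : Prop :=
  ∃ η1 : ℝ, 0 < η1 ∧ η1 ≤ 1 / 50 ∧ ∀ η : ℝ, 0 < η → η ≤ η1 → ∃ X0 : ℝ, 3 ≤ X0 ∧
  ∀ (d : ZI → ZI) (ψ : ZI → (ZI →* ℂ)), QD k ψ₀ d ψ →
  ∀ (X T Y : ℝ), X0 ≤ X → (Real.log X) ^ 2 ≤ T → T ≤ X ^ η → X * Real.log X ≤ Y →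
  ∀ S : Finset ZI, (∀ m : ZI, m ∈ S ↔ (nz m ≤ Y ∧ ¬ IsSquare m ∧ (k = 0 → ¬ IsUnit (d m)))) →
    ∑ m ∈ S, om X m * (2 * (NN (LJ k (ψ m)) T (2 * T) : ℝ) -
        (Ns (LJ k (ψ m)) T (2 * T) : ℝ)) ≤
      κ * ∑ m ∈ S, om X m * (NN (LJ k (ψ m)) T (2 * T) : ℝ) ∧
    ∑ m ∈ S, om X m * (3 * (NN (LJ k (ψ m)) T (2 * T) : ℝ) -
        2 * (Nd (LJ k (ψ m)) T (2 * T) : ℝ)) ≤
      κ * ∑ m ∈ S, om X m * (NN (LJ k (ψ m)) T (2 * T) : ℝ) ∧
    X * T * Real.log X / 7 ≤ ∑ m ∈ S, om X m * (NN (LJ k (ψ m)) T (2 * T) : ℝ)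

/-- the non-squares -/
def NSq (Y : ℝ) (S : Finset ZI) : Prop := ∀ m : ZI, m ∈ S ↔ (nz m ≤ Y ∧ ¬ IsSquare m)

lemma NSq.ne {Y : ℝ} {S : Finset ZI} (h : NSq Y S) : ∀ m ∈ S, m ≠ 0 := fun m hm =>
  ne_zero_of ((h m).1 hm).2

lemma NSq.sum {Y : ℝ} {S : Finset ZI} (h : NSq Y S) (c : Bool) (X : ℝ) (f : ZI → ℝ) :
    ∑ m ∈ S, om X m * f (sc c m) = ∑ m ∈ S, om X m * f m := by
  have hS : ∀ m ∈ S, sc c m ∈ S := by
    intro m hm
    obtain ⟨h1, h2⟩ := (h m).1 hm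
    exact (h _).2 ⟨by rw [sc_nz]; exact h1, fun h3 => h2 (sc_sq.1 h3)⟩
  refine Finset.sum_bij' (fun m _ => sc c m) (fun m _ => sc c m) hS hS
    (fun m _ => sc_sc c m) (fun m _ => sc_sc c m) (fun m _ => ?_)
  rw [sc_om]

/-- a family of L-functions such that most zeros are on the line -/
def Part (κ : ℝ) (tw : Prop) (Z : ZI → ℂ → ℂ) : Prop :=
  ∃ C η1 : ℝ, 0 < C ∧ 0 < η1 ∧ ∀ η : ℝ, 0 < η → η ≤ η1 → ∃ X0 : ℝ, 10 ≤ X0 ∧
  ∀ (X T Y : ℝ), X0 ≤ X → (Real.log X) ^ 2 ≤ T → T ≤ X ^ η → X * Real.log X ≤ Y →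
  ∀ S : Finset ZI, NSq Y S →
    (2 - κ) * ∑ m ∈ S, om X m * (NN (Z m) T (2 * T) : ℝ) ≤
      ∑ m ∈ S, om X m * (Ns (Z m) T (2 * T) : ℝ) + C * η * (X * T * Real.log X) ∧
    (tw → X * T * Real.log X / 7 ≤ ∑ m ∈ S, om X m * (NN (Z m) T (2 * T) : ℝ))

theorem part_fix {κ : ℝ} (hκ0 : 0 ≤ κ) {F : ℂ → ℂ} (hF : Nice F) :
    Part κ False (fun _ => F) := by
  obtain ⟨C, hC, hc⟩ := small_part hF
  refine ⟨2 * C, 1, by positivity, one_pos, fun η hη _ => ⟨10, le_rfl, ?_⟩⟩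
  intro X T Y hX hT1 hT2 hY S hS
  refine ⟨?_, fun h => h.elim⟩
  have h1 := hc η X T S hX hT1 hT2 hS.ne
  have h2 : 0 ≤ ∑ m ∈ S, om X m * (NN F T (2 * T) : ℝ) :=
    Finset.sum_nonneg fun m _ => mul_nonneg (om_nonneg X m) (Nat.cast_nonneg _)
  have h3 : 0 ≤ ∑ m ∈ S, om X m * (Ns F T (2 * T) : ℝ) :=
    Finset.sum_nonneg fun m _ => mul_nonneg (om_nonneg X m) (Nat.cast_nonneg _)
  have h4 : 0 ≤ κ * ∑ m ∈ S, om X m * (NN F T (2 * T) : ℝ) := mul_nonneg hκ0 h2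
  linarith

theorem part_tw {κ : ℝ} (hκ0 : 0 ≤ κ) (hκ2 : κ ≤ 2) {k : ℕ} {q : ZI} {χ : ZI →* ℂ}
    (hb : Body κ k χ) {d : ZI → ZI} {ψ : ZI → (ZI →* ℂ)} (hd : QD k χ d ψ) (c : Bool) :
    Part κ True (fun m => LP k (d (sc c m)) (ψ (sc c m))) := by
  classical
  obtain ⟨C, hC, hc⟩ := small_part nice_ZF
  obtain ⟨η1, hη1, -, hb⟩ := hb
  refine ⟨2 * C, η1, by positivity, hη1, fun η hη hη2 => ?_⟩
  obtain ⟨X0, hX0, hb⟩ := hb η hη hη2
  refine ⟨max X0 10, le_max_right _ _, ?_⟩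
  intro X T Y hX hT1 hT2 hY S hS
  have hX1 : X0 ≤ X := (le_max_left _ _).trans hX
  have hX10 : 10 ≤ X := (le_max_right _ _).trans hX
  have hsum1 := hS.sum c X (fun m => (NN (LP k (d m) (ψ m)) T (2 * T) : ℝ))
  have hsum2 := hS.sum c X (fun m => (Ns (LP k (d m) (ψ m)) T (2 * T) : ℝ))
  simp only at hsum1 hsum2 ⊢
  rw [hsum1, hsum2]
  set S' := S.filter (fun m => k = 0 → ¬ IsUnit (d m)) with hS'
  have hmem : ∀ m : ZI, m ∈ S' ↔ (nz m ≤ Y ∧ ¬ IsSquare m ∧ (k = 0 → ¬ IsUnit (d m))) := by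
    intro m
    rw [hS', Finset.mem_filter, hS m, and_assoc]
  obtain ⟨f1, -, f3⟩ := hb d ψ hd X T Y hX1 hT1 hT2 hY S' hmem
  have hLP : ∀ m ∈ S', LP k (d m) (ψ m) = LJ k (ψ m) := by
    intro m hm
    have := ((hmem m).1 hm).2.2
    exact LP_neg (fun h => this h.1 h.2) _
  have e1 : ∑ m ∈ S', om X m * (NN (LP k (d m) (ψ m)) T (2 * T) : ℝ) =
      ∑ m ∈ S', om X m * (NN (LJ k (ψ m)) T (2 * T) : ℝ) :=
    Finset.sum_congr rfl fun m hm => by rw [hLP m hm]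
  have e2 : ∑ m ∈ S', om X m * (Ns (LP k (d m) (ψ m)) T (2 * T) : ℝ) =
      ∑ m ∈ S', om X m * (Ns (LJ k (ψ m)) T (2 * T) : ℝ) :=
    Finset.sum_congr rfl fun m hm => by rw [hLP m hm]
  have e3 : ∑ m ∈ S', om X m * (2 * (NN (LJ k (ψ m)) T (2 * T) : ℝ) -
        (Ns (LJ k (ψ m)) T (2 * T) : ℝ)) =
      2 * ∑ m ∈ S', om X m * (NN (LJ k (ψ m)) T (2 * T) : ℝ) -
        ∑ m ∈ S', om X m * (Ns (LJ k (ψ m)) T (2 * T) : ℝ) := by
    rw [Finset.mul_sum, ← Finset.sum_sub_distrib]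
    exact Finset.sum_congr rfl fun m _ => by ring
  rw [e3] at f1
  have e4 : ∑ m ∈ S, om X m * (NN (LP k (d m) (ψ m)) T (2 * T) : ℝ) =
      ∑ m ∈ S', om X m * (NN (LP k (d m) (ψ m)) T (2 * T) : ℝ) +
      ∑ m ∈ S.filter (fun m => ¬ (k = 0 → ¬ IsUnit (d m))),
        om X m * (NN (LP k (d m) (ψ m)) T (2 * T) : ℝ) :=
    (Finset.sum_filter_add_sum_filter_not S _ _).symm
  have e5 : ∑ m ∈ S.filter (fun m => ¬ (k = 0 → ¬ IsUnit (d m))),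
        om X m * (NN (LP k (d m) (ψ m)) T (2 * T) : ℝ) =
      ∑ m ∈ S.filter (fun m => ¬ (k = 0 → ¬ IsUnit (d m))),
        om X m * (NN ZF T (2 * T) : ℝ) := by
    refine Finset.sum_congr rfl fun m hm => ?_
    have h1 := (Finset.mem_filter.1 hm).2
    push Not at h1
    obtain ⟨h2, h3⟩ := h1
    unfold LP
    rw [if_pos ⟨h2, h3⟩]
  have e6 := hc η X T (S.filter (fun m => ¬ (k = 0 → ¬ IsUnit (d m)))) hX10 hT1 hT2
    (fun m hm => hS.ne m (Finset.mem_filter.1 hm).1)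
  have e7 : ∑ m ∈ S', om X m * (Ns (LP k (d m) (ψ m)) T (2 * T) : ℝ) ≤
      ∑ m ∈ S, om X m * (Ns (LP k (d m) (ψ m)) T (2 * T) : ℝ) :=
    Finset.sum_le_sum_of_subset_of_nonneg (Finset.filter_subset _ _)
      fun m _ _ => mul_nonneg (om_nonneg X m) (Nat.cast_nonneg _)
  have e8 : 0 ≤ ∑ m ∈ S.filter (fun m => ¬ (k = 0 → ¬ IsUnit (d m))),
        om X m * (NN ZF T (2 * T) : ℝ) :=
    Finset.sum_nonneg fun m _ => mul_nonneg (om_nonneg X m) (Nat.cast_nonneg _)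
  rw [e4, e5, e1]
  rw [e2] at e7
  refine ⟨?_, fun _ => by linarith⟩
  have e9 := mul_nonneg hκ0 e8
  rw [mul_add]
  linarith

/-- putting the parts together -/
theorem total {J : Type} [Fintype J] {κ : ℝ} (hκ2 : κ < 1.3275) (tw : J → Prop)
    [DecidablePred tw] (htw : ∃ j, tw j) (Z : J → ZI → ℂ → ℂ) (hZ : ∀ j, Part κ (tw j) (Z j)) :
    ∃ η X0 : ℝ, 0 < η ∧ 10 ≤ X0 ∧
    ∀ (X T Y : ℝ), X0 ≤ X → (Real.log X) ^ 2 ≤ T → T ≤ X ^ η → X * Real.log X ≤ Y →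
    ∀ S : Finset ZI, NSq Y S →
      0.6725 * ∑ m ∈ S, om X m * ∑ j, (NN (Z j m) T (2 * T) : ℝ) ≤
        ∑ m ∈ S, om X m * ∑ j, (Ns (Z j m) T (2 * T) : ℝ) ∧
      ((Finset.univ.filter tw).card : ℝ) * (X * T * Real.log X / 7) ≤
        ∑ m ∈ S, om X m * ∑ j, (NN (Z j m) T (2 * T) : ℝ) := by
  classical
  choose C η1 hC hη1 h using hZ
  obtain ⟨j0, hj0⟩ := htw
  obtain ⟨D, hD⟩ : ∃ D, D = ∑ j, C j := ⟨_, rfl⟩
  have hD0 : 0 < D := by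
    rw [hD]
    exact Finset.sum_pos (fun j _ => hC j) ⟨j0, Finset.mem_univ _⟩
  obtain ⟨δ, hδ⟩ : ∃ δ, δ = 1.3275 - κ := ⟨_, rfl⟩
  have hδ0 : 0 < δ := by linarith
  obtain ⟨η, hη, hη2, hη3⟩ : ∃ η : ℝ, 0 < η ∧ η ≤ δ / (7 * D) ∧ ∀ j, η ≤ η1 j := by
    have h1 : 0 < ∑ j, (η1 j)⁻¹ :=
      Finset.sum_pos (fun j _ => inv_pos.2 (hη1 j)) ⟨j0, Finset.mem_univ _⟩
    refine ⟨min (δ / (7 * D)) (∑ j, (η1 j)⁻¹)⁻¹, lt_min (by positivity) (by positivity),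
      min_le_left _ _, fun j => (min_le_right _ _).trans ?_⟩
    have h2 : (η1 j)⁻¹ ≤ ∑ i, (η1 i)⁻¹ :=
      Finset.single_le_sum (f := fun i => (η1 i)⁻¹) (fun i _ => (inv_pos.2 (hη1 i)).le)
        (Finset.mem_univ j)
    have h3 := inv_anti₀ (inv_pos.2 (hη1 j)) h2
    rwa [inv_inv] at h3
  have h' := fun j => h j η hη (hη3 j)
  choose X0 hX0 h' using h'
  have hXs : ∀ j, X0 j ≤ ∑ i, X0 i := fun j =>
    Finset.single_le_sum (f := X0) (fun i _ => le_trans (by norm_num) (hX0 i)) (Finset.mem_univ j)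
  refine ⟨η, ∑ j, X0 j, hη, (hX0 j0).trans (hXs j0), ?_⟩
  intro X T Y hX hT1 hT2 hY S hS
  have hX10 : 10 ≤ X := ((hX0 j0).trans (hXs j0)).trans hX
  have hT := T_ge hX10 hT1
  have hlog := log_ge_two hX10
  obtain ⟨W, hW⟩ : ∃ W, W = X * T * Real.log X := ⟨_, rfl⟩
  have hW0 : 0 < W := by
    rw [hW]
    have : 0 < X * T := mul_pos (by linarith) (by linarith)
    exact mul_pos this (by linarith)
  rw [← hW]
  have hj := fun j => h' j X T Y ((hXs j).trans hX) hT1 hT2 hY S hS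
  have s1 : ∀ f : J → ZI → ℝ, ∑ m ∈ S, om X m * ∑ j, f j m = ∑ j, ∑ m ∈ S, om X m * f j m := by
    intro f
    rw [Finset.sum_comm]
    exact Finset.sum_congr rfl fun m _ => Finset.mul_sum _ _ _
  rw [s1 (fun j m => (NN (Z j m) T (2 * T) : ℝ)), s1 (fun j m => (Ns (Z j m) T (2 * T) : ℝ))]
  have t1 : (2 - κ) * ∑ j, ∑ m ∈ S, om X m * (NN (Z j m) T (2 * T) : ℝ) ≤
      ∑ j, ∑ m ∈ S, om X m * (Ns (Z j m) T (2 * T) : ℝ) + D * η * W := by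
    rw [Finset.mul_sum, hD, Finset.sum_mul, Finset.sum_mul, ← Finset.sum_add_distrib, hW]
    exact Finset.sum_le_sum fun j _ => (hj j).1
  have t2 : ((Finset.univ.filter tw).card : ℝ) * (W / 7) ≤
      ∑ j, ∑ m ∈ S, om X m * (NN (Z j m) T (2 * T) : ℝ) := by
    calc ((Finset.univ.filter tw).card : ℝ) * (W / 7) = ∑ _j ∈ Finset.univ.filter tw, W / 7 := by
          rw [Finset.sum_const, nsmul_eq_mul]
      _ ≤ ∑ j ∈ Finset.univ.filter tw, ∑ m ∈ S, om X m * (NN (Z j m) T (2 * T) : ℝ) := by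
          refine Finset.sum_le_sum fun j hj' => ?_
          rw [hW]
          exact (hj j).2 (Finset.mem_filter.1 hj').2
      _ ≤ _ := Finset.sum_le_sum_of_subset_of_nonneg (Finset.filter_subset _ _)
          fun j _ _ => Finset.sum_nonneg fun m _ => mul_nonneg (om_nonneg X m) (Nat.cast_nonneg _)
  refine ⟨?_, t2⟩
  have hcard : (1 : ℝ) ≤ ((Finset.univ.filter tw).card : ℝ) := by
    have : 0 < (Finset.univ.filter tw).card :=
      Finset.card_pos.2 ⟨j0, Finset.mem_filter.2 ⟨Finset.mem_univ _, hj0⟩⟩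
    exact_mod_cast this
  obtain ⟨N, hN⟩ : ∃ N, N = ∑ j, ∑ m ∈ S, om X m * (NN (Z j m) T (2 * T) : ℝ) := ⟨_, rfl⟩
  rw [← hN] at t1 t2 ⊢
  have t3 : W / 7 ≤ N := by
    refine le_trans ?_ t2
    calc W / 7 = 1 * (W / 7) := (one_mul _).symm
      _ ≤ _ := mul_le_mul_of_nonneg_right hcard (by positivity)
  have t4 : D * η * W ≤ δ * N := by
    have h1 : D * η ≤ δ / 7 := by
      have := mul_le_mul_of_nonneg_left hη2 hD0.le
      calc D * η ≤ D * (δ / (7 * D)) := this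
        _ = δ / 7 := by field_simp
    calc D * η * W ≤ δ / 7 * W := mul_le_mul_of_nonneg_right h1 hW0.le
      _ = δ * (W / 7) := by ring
      _ ≤ δ * N := mul_le_mul_of_nonneg_left t3 hδ0.le
  have t5 : (2 - κ) * N = 0.6725 * N + δ * N := by rw [hδ]; ring
  linarith

end Pool.Agent.Zk20.QT
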