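import Pool.Agent.Zk20.QT.Char

/-!
Hecke characters of type `(a, b)` and their Euler factors (helper20).
-/

set_option autoImplicit false
set_option maxHeartbeats 4000000

open Complex Filter Topology Set
open H385 (ZI nrm)
open H370 (zset mult NN Nd Ns)
open Pool.Agent.H304R3.HK (bb ee UH tc)
open Pool.Agent.W164.RC
open Pool.Agent.W354.PK (HCk LK aK bK psik uh_psik)
open Pool.Agent.N880.QI (nz sy om Att ne_zero_of one_le_nz nz_tc)
open Pool.Agent.N880.QK (LJ QD)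

namespace Pool.Agent.Zk20.QT

/-- a Hecke character of `ℚ(i)` with `ψ((x)) = χ(x) x^a conj(x)^b` -/
structure HT (a b : ℕ) (q : ZI) (χ : ZI →* ℂ) : Prop where
  q0 : q ≠ 0
  per : ∀ x y : ZI, q ∣ x - y → χ x = χ y
  supp : ∀ x : ZI, χ x ≠ 0 ↔ IsCoprime x q
  nrm : ∀ x : ZI, IsCoprime x q → ‖χ x‖ = 1
  unit : χ ⟨0, 1⟩ * I ^ a * (-I) ^ b = 1
  prim : ∀ d : ZI, d ∣ q → ¬ q ∣ d → ∃ x : ZI, IsCoprime x q ∧ d ∣ x - 1 ∧ χ x ≠ 1

/-- conjugation as a ring homomorphism -/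
noncomputable def scR (c : Bool) : ZI →+* ZI := bif c then starRingEnd ZI else RingHom.id ZI

lemma scR_apply (c : Bool) (z : ZI) : scR c z = sc c z := by
  cases c <;> rfl

lemma sc_sub (c : Bool) (z w : ZI) : sc c (z - w) = sc c z - sc c w := by
  rw [← scR_apply, map_sub, scR_apply, scR_apply]

lemma sc_coprime {c : Bool} {z w : ZI} : IsCoprime (sc c z) (sc c w) ↔ IsCoprime z w := by
  constructor
  · intro h
    have h2 := h.map (scR c)
    rw [scR_apply, scR_apply, sc_sc, sc_sc] at h2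
    exact h2
  · intro h
    have h2 := h.map (scR c)
    rw [scR_apply, scR_apply] at h2
    exact h2

/-- the infinity type -/
def kk (a b : ℕ) : ℕ := (a - b) + (b - a)

/-- whether one has to conjugate -/
def cc (a b : ℕ) : Bool := decide (a < b)

/-- the character after conjugation -/
noncomputable def xc (c : Bool) (χ : ZI →* ℂ) : ZI →* ℂ := χ.comp (scR c : ZI →* ZI)

lemma xc_apply (c : Bool) (χ : ZI →* ℂ) (z : ZI) : xc c χ z = χ (sc c z) := by
  unfold xc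
  rw [MonoidHom.comp_apply]
  congr 1
  exact scR_apply c z

lemma I_neg (n : ℕ) : I ^ n * (-I) ^ n = 1 := by
  rw [← mul_pow, mul_neg, I_mul_I, neg_neg, one_pow]

/-- in the normal form -/
theorem HT.hck {a b : ℕ} {q : ZI} {χ : ZI →* ℂ} (H : HT a b q χ) :
    HCk (kk a b) (sc (cc a b) q) (xc (cc a b) χ) := by
  obtain ⟨c, hc⟩ : ∃ c, c = cc a b := ⟨_, rfl⟩
  rw [← hc]
  refine ⟨sc_ne H.q0, ?_, ?_, ?_, ?_, ?_⟩
  · intro x y hxy
    rw [xc_apply, xc_apply]
    apply H.per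
    rw [← sc_dvd (c := c), sc_sub, sc_sc, sc_sc]
    exact hxy
  · intro x
    rw [xc_apply, H.supp, ← sc_coprime (c := c), sc_sc]
  · intro x hx
    rw [xc_apply]
    apply H.nrm
    rw [← sc_coprime (c := c), sc_sc]
    exact hx
  · rw [xc_apply]
    by_cases hab : a < b
    · have hc' : c = true := by rw [hc]; exact decide_eq_true hab
      rw [hc']
      have e1 : sc true (⟨0, 1⟩ : ZI) = ⟨0, -1⟩ := by
        show star (⟨0, 1⟩ : ZI) = _
        ext <;> simp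
      have e2 : χ ⟨0, 1⟩ * χ ⟨0, -1⟩ = 1 := by
        rw [← map_mul]
        have : (⟨0, 1⟩ : ZI) * ⟨0, -1⟩ = 1 := by ext <;> simp
        rw [this, map_one]
      have e3 : kk a b = b - a := by unfold kk; omega
      rw [e1, e3]
      have e4 : I ^ a * (-I) ^ b = (-I) ^ (b - a) := by
        have : (-I) ^ b = (-I) ^ a * (-I) ^ (b - a) := by rw [← pow_add]; congr 1; omega
        rw [this, ← mul_assoc, I_neg, one_mul]
      have e5 := H.unit
      rw [mul_assoc, e4] at e5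
      linear_combination (-I) ^ (b - a) * e2 - χ ⟨0, -1⟩ * e5
    · have hc' : c = false := by rw [hc]; exact decide_eq_false hab
      rw [hc']
      have e1 : sc false (⟨0, 1⟩ : ZI) = ⟨0, 1⟩ := rfl
      have e3 : kk a b = a - b := by unfold kk; omega
      rw [e1, e3]
      have e4 : I ^ a * (-I) ^ b = I ^ (a - b) := by
        have : I ^ a = I ^ (a - b) * I ^ b := by rw [← pow_add]; congr 1; omega
        rw [this, mul_assoc, I_neg, mul_one]
      have e5 := H.unit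
      rw [mul_assoc, e4] at e5
      have e6 := I_neg (a - b)
      linear_combination (-I) ^ (a - b) * e5 - χ ⟨0, 1⟩ * e6
  · intro d hd1 hd2
    obtain ⟨x, h1, h2, h3⟩ := H.prim (sc c d) (by rw [← sc_dvd (c := c), sc_sc]; exact hd1)
      (by
        intro h
        apply hd2
        rw [← sc_dvd (c := c), sc_sc]
        exact h)
    refine ⟨sc c x, ?_, ?_, ?_⟩
    · exact sc_coprime.2 h1
    · rw [← sc_dvd (c := c), sc_sub, sc_sc, sc_one]
      exact h2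
    · rw [xc_apply, sc_sc]
      exact h3

lemma norm_tc_ne {z : ZI} (hz : z ≠ 0) : (‖tc z‖ : ℂ) ≠ 0 := by
  have := Pool.Agent.H304R3.HK.one_le_norm_tc hz
  exact_mod_cast (by linarith : ‖tc z‖ ≠ 0)

lemma tc_conj (z : ZI) : tc z * (starRingEnd ℂ) (tc z) = (‖tc z‖ : ℂ) ^ 2 := by
  rw [Complex.mul_conj, Complex.normSq_eq_norm_sq]
  push_cast
  rfl

lemma norm_tc_sc (c : Bool) (z : ZI) : ‖tc (sc c z)‖ = ‖tc z‖ := by
  rw [tc_sc]
  split_ifs
  · exact RCLike.norm_conj _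
  · rfl

/-- values of the character -/
theorem val_eq {a b : ℕ} {χ ψ : ZI →* ℂ} {z : ZI} (hz : z ≠ 0) {e : ℂ}
    (hψ : ψ (sc (cc a b) z) = χ z * e) :
    χ z * tc z ^ a * (starRingEnd ℂ) (tc z) ^ b * e =
      psik (kk a b) ψ (sc (cc a b) z) * (‖tc z‖ : ℂ) ^ (a + b) := by
  have hr := norm_tc_ne hz
  have hps : psik (kk a b) ψ (sc (cc a b) z) =
      ψ (sc (cc a b) z) * (tc (sc (cc a b) z) / (‖tc z‖ : ℂ)) ^ kk a b := by
    show (if sc (cc a b) z = 0 then (0 : ℂ) else _) = _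
    rw [if_neg (sc_ne hz), norm_tc_sc]
  rw [hps, hψ, div_pow]
  have h2 := tc_conj z
  by_cases hab : a < b
  · have hc : cc a b = true := decide_eq_true hab
    have e3 : kk a b = b - a := by unfold kk; omega
    rw [hc, e3, tc_sc, if_pos rfl]
    have e4 : (starRingEnd ℂ) (tc z) ^ b = (starRingEnd ℂ) (tc z) ^ a *
        (starRingEnd ℂ) (tc z) ^ (b - a) := by rw [← pow_add]; congr 1; omega
    have e5 : (‖tc z‖ : ℂ) ^ (a + b) = ((‖tc z‖ : ℂ) ^ 2) ^ a * (‖tc z‖ : ℂ) ^ (b - a) := by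
      rw [← pow_mul, ← pow_add]; congr 1; omega
    rw [e4, e5, ← h2, mul_pow]
    have h3 := pow_ne_zero (b - a) hr
    field_simp
  · have hc : cc a b = false := decide_eq_false hab
    have e3 : kk a b = a - b := by unfold kk; omega
    rw [hc, e3, tc_sc, if_neg (by simp)]
    have e4 : tc z ^ a = tc z ^ b * tc z ^ (a - b) := by rw [← pow_add]; congr 1; omega
    have e5 : (‖tc z‖ : ℂ) ^ (a + b) = ((‖tc z‖ : ℂ) ^ 2) ^ b * (‖tc z‖ : ℂ) ^ (a - b) := by
      rw [← pow_mul, ← pow_add]; congr 1; omega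
    rw [e4, e5, ← h2, mul_pow]
    have h3 := pow_ne_zero (a - b) hr
    field_simp

/-- the norm of a prime above `p` -/
lemma cpow_norm {p : ℕ} (hp : p.Prime) {z : ZI} (hz : z ∈ Ip p) (i : ℕ) (s : ℂ) :
    (‖tc z‖ : ℂ) ^ i * ((Zsqrtd.norm z : ℤ) : ℂ) ^ (-s) =
      ((p : ℂ) ^ (-(s - (i : ℂ) / 2))) ^ dg p := by
  obtain ⟨-, -, h3, -⟩ := Ip_spec hp hz
  have hp0 : (p : ℂ) ≠ 0 := Nat.cast_ne_zero.2 hp.ne_zero
  have h4 : ((Zsqrtd.norm z : ℤ) : ℂ) = (p : ℂ) ^ dg p := by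
    have h5 : (Zsqrtd.norm z : ℤ) = ((nrm z : ℕ) : ℤ) := by
      unfold nrm
      rw [Int.natAbs_of_nonneg (GaussianInt.norm_nonneg z)]
    rw [h5, h3]
    push_cast
    rfl
  have h6 : ‖tc z‖ ^ 2 = (p : ℝ) ^ dg p := by
    have h7 := nz_tc z
    unfold nz at h7
    rw [h7]
    have h8 : (((Zsqrtd.norm z : ℤ) : ℝ) : ℂ) = (((p : ℝ) ^ dg p : ℝ) : ℂ) := by
      push_cast
      exact_mod_cast h4
    exact_mod_cast h8
  rw [h4]
  have hd : dg p = 1 ∨ dg p = 2 := by unfold dg; split_ifs <;> simp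
  rcases hd with hd | hd
  · rw [hd, pow_one] at h6 ⊢
    rw [pow_one]
    have h9 : ‖tc z‖ = Real.sqrt p := by
      rw [← h6, Real.sqrt_sq (norm_nonneg _)]
    rw [h9, show ((Real.sqrt p : ℝ) : ℂ) = (p : ℂ) ^ (1 / 2 : ℂ) by
      rw [Real.sqrt_eq_rpow, Complex.ofReal_cpow (Nat.cast_nonneg p)]
      push_cast
      rfl, ← Complex.cpow_nat_mul, ← Complex.cpow_add _ _ hp0]
    congr 1
    ring
  · rw [hd] at h6 ⊢
    have h9 : ‖tc z‖ = (p : ℝ) := by
      have := abs_eq_abs.2 (Or.inl (rfl : ‖tc z‖ = ‖tc z‖))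
      nlinarith [norm_nonneg (tc z), Nat.cast_nonneg (α := ℝ) p, sq_nonneg (‖tc z‖ - p),
        sq_nonneg (‖tc z‖ + p), (sq_eq_sq₀ (norm_nonneg (tc z)) (Nat.cast_nonneg (α := ℝ) p)).1 h6]
    rw [h9]
    have e1 : ((p : ℂ) ^ 2) ^ (-s) = ((p : ℂ) ^ (-s)) ^ 2 := by
      rw [sq, sq]
      exact Complex.natCast_mul_natCast_cpow p p (-s)
    have e2 : (p : ℂ) ^ (-(s - (i : ℂ) / 2)) = (p : ℂ) ^ (-s) * (p : ℂ) ^ ((i : ℂ) / 2) := by
      rw [← Complex.cpow_add _ _ hp0]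
      congr 1
      ring
    have e3 : ((p : ℂ) ^ ((i : ℂ) / 2)) ^ 2 = (p : ℂ) ^ i := by
      rw [← Complex.cpow_nat_mul, ← Complex.cpow_natCast]
      congr 1
      push_cast
      ring
    rw [e1, e2, mul_pow, e3]
    push_cast
    ring

/-- the Gaussian primes above `p` which are congruent to one modulo `2 + 2 i` -/
lemma Ip_set {p : ℕ} (hp : p.Prime) (h2 : p ≠ 2) :
    {z : ZI | Prime z ∧ z ∣ (p : ZI) ∧ (⟨2, 2⟩ : ZI) ∣ z - 1} = (Ip p : Set ZI) := by
  ext z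
  constructor
  · rintro ⟨h3, h4, h5⟩
    have hP : (Ideal.span {z}).IsPrime := (Ideal.span_singleton_prime h3.ne_zero).2 h3
    obtain ⟨w, hw, hwz⟩ := Ip_exists hp h2 (RingHom.id ZI) (Ideal.span {z})
      (Ideal.mem_span_singleton.2 h4)
    rw [RingHom.id_apply, Ideal.mem_span_singleton] at hwz
    obtain ⟨hw1, hw2, -, -⟩ := Ip_spec hp hw
    obtain ⟨u, hu⟩ := h3.associated_of_dvd hw2 hwz
    have hw1' : (⟨2, 2⟩ : ZI) ∣ w - 1 := (prim_iff_dvd w).1 hw1
    have h6 : (⟨2, 2⟩ : ZI) ∣ (u : ZI) - 1 := by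
      have : (u : ZI) - 1 = (w - 1) - (z - 1) * u := by rw [← hu]; ring
      rw [this]
      exact dvd_sub hw1' (h5.mul_right _)
    have h8 : (u : ZI) = 1 :=
      Pool.Agent.H304R2.EC.A1.eq_one_of_prim ((prim_iff_dvd _).2 h6) (unit_norm u)
    rw [h8, mul_one] at hu
    rw [hu]
    exact hw
  · intro hz
    obtain ⟨h3, h4, -, h5⟩ := Ip_spec hp (Finset.mem_coe.1 hz)
    exact ⟨h4, h5, (prim_iff_dvd z).1 h3⟩

end Pool.Agent.Zk20.QT
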