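import Pool.Agent.Zk20.QT.Asm

/-!
The L-functions of degree `i`, all quadratic twists (helper20).
-/

set_option autoImplicit false
set_option maxHeartbeats 4000000

open Complex Filter Topology Set
open H385 (ZI nrm)
open H370 (zset mult NN Nd Ns)
open Pool.Agent.H304R3.HK (bb ee UH tc)
open Pool.Agent.W164.RC
open Pool.Agent.W354.PK (HCk LK aK bK psik uh_psik)
open Pool.Agent.N880.QI (nz sy om Att ne_zero_of one_le_nz nz_tc)
open Pool.Agent.N880.QK (LJ QD)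
open Pool.Agent.H82R3.EK (cnt strip line mult_prod cnt_prod NN_eq Ns_le)

namespace Pool.Agent.Zk20.QT

section
variable {J : Type} [Fintype J]

/-- conductor of the `j`-th factor -/
noncomputable def Qc (a b : J → ℕ) (q : J → ZI) (tw : J → Bool) (D : J → ZI → ZI) (m : ZI) (j : J) : ZI :=
  bif tw j then D j (sc (cc (a j) (b j)) m) else sc (cc (a j) (b j)) (q j)

/-- character of the `j`-th factor -/
noncomputable def Tc (a b : J → ℕ) (χ : J → ZI →* ℂ) (tw : J → Bool) (Ψ : J → ZI → (ZI →* ℂ)) (m : ZI)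
    (j : J) : ZI →* ℂ :=
  bif tw j then Ψ j (sc (cc (a j) (b j)) m) else xc (cc (a j) (b j)) (χ j)

/-- the L-function of the `j`-th factor -/
noncomputable def Zf (a b : J → ℕ) (q : J → ZI) (χ : J → ZI →* ℂ) (tw : J → Bool) (D : J → ZI → ZI)
    (Ψ : J → ZI → (ZI →* ℂ)) (m : ZI) (j : J) : ℂ → ℂ :=
  LP (kk (a j) (b j)) (Qc a b q tw D m j) (Tc a b χ tw Ψ m j)

/-- the factor without zeros -/
noncomputable def Uf (N : ℕ) (a b : J → ℕ) (χ : J → ZI →* ℂ) (tw : J → Bool)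
    (Ψ : J → ZI → (ZI →* ℂ)) (m : ZI) (s : ℂ) : ℂ :=
  ∏ j, Cq ((bad N m ^ 2 : ℕ) : ZI) (psik (kk (a j) (b j)) (Tc a b χ tw Ψ m j)) s

/-- the product, centred at `1/2` -/
noncomputable def Gf (N : ℕ) (a b : J → ℕ) (q : J → ZI) (χ : J → ZI →* ℂ) (tw : J → Bool)
    (D : J → ZI → ZI) (Ψ : J → ZI → (ZI →* ℂ)) (m : ZI) (z : ℂ) : ℂ :=
  (∏ j, Zf a b q χ tw D Ψ m j z) * Uf N a b χ tw Ψ m z

variable {i N : ℕ} {a b : J → ℕ} {q : J → ZI} {χ : J → ZI →* ℂ} {tw : J → Bool}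
  {D : J → ZI → ZI} {Ψ : J → ZI → (ZI →* ℂ)}

lemma hck_T (H : ∀ j, HT (a j) (b j) (q j) (χ j))
    (hQ : ∀ j, QD (kk (a j) (b j)) (xc (cc (a j) (b j)) (χ j)) (D j) (Ψ j)) {m : ZI}
    (hm : ¬ IsSquare m) (j : J) :
    HCk (kk (a j) (b j)) (Qc a b q tw D m j) (Tc a b χ tw Ψ m j) := by
  unfold Qc Tc
  cases htw : tw j
  · exact (H j).hck
  · exact (hQ j).hc _ (fun h => hm (sc_sq.1 h))

lemma bad_ne (hN : N ≠ 0) {m : ZI} (hm : m ≠ 0) : bad N m ≠ 0 := by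
  unfold bad
  refine mul_ne_zero hN ?_
  rw [Ne, Int.natAbs_eq_zero, GaussianInt.norm_eq_zero]
  exact hm

/-- the Euler product -/
theorem euler_all (hab : ∀ j, a j + b j = i) (H : ∀ j, HT (a j) (b j) (q j) (χ j))
    (hQ : ∀ j, QD (kk (a j) (b j)) (xc (cc (a j) (b j)) (χ j)) (D j) (Ψ j))
    (hN : N ≠ 0) (h2 : 2 ∣ N) (hq : ∀ j, q j ∣ (N : ZI)) {m : ZI} (hm : ¬ IsSquare m) {s : ℂ}
    (hs : (i : ℝ) / 2 + 1 < s.re) :
    HasProd (fun p : {p : Nat.Primes // ¬ (p : ℕ) ∣ bad N m} =>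
      (∏ z ∈ Ip (p : Nat.Primes), ∏ j, lf (a j) (b j) (χ j) (tw j) m z s)⁻¹)
      (Gf N a b q χ tw D Ψ m (s - (i : ℂ) / 2)) := by
  classical
  unfold Gf
  have hm0 := ne_zero_of hm
  have hre : 1 < (s - (i : ℂ) / 2).re := by rw [re_half']; linarith
  have hM : ((bad N m ^ 2 : ℕ) : ZI) ≠ 0 := nat_ne (pow_ne_zero _ (bad_ne hN hm0))
  have h22 : two2 ∣ ((bad N m ^ 2 : ℕ) : ZI) := by
    have h3 : 4 ∣ bad N m ^ 2 :=
      pow_dvd_pow_of_dvd (h2.trans (dvd_mul_right N (Zsqrtd.norm m).natAbs)) 2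
    refine dvd_trans ?_ (nat_dvd h3)
    exact ⟨⟨1, -1⟩, by decide⟩
  have h3 : HasProd (fun p : Nat.Primes => ∏ j, epf ((bad N m ^ 2 : ℕ) : ZI)
      (psik (kk (a j) (b j)) (Tc a b χ tw Ψ m j)) (s - (i : ℂ) / 2) p)
      (∏ j, (Zf a b q χ tw D Ψ m j (s - (i : ℂ) / 2) *
        Cq ((bad N m ^ 2 : ℕ) : ZI) (psik (kk (a j) (b j)) (Tc a b χ tw Ψ m j)) (s - (i : ℂ) / 2))) :=
    hasProd_prod fun j _ => prod_LP (hck_T H hQ hm j) hM h22 hre
  rw [Finset.prod_mul_distrib] at h3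
  have h4 : Function.mulSupport (fun p : Nat.Primes => ∏ j, epf ((bad N m ^ 2 : ℕ) : ZI)
      (psik (kk (a j) (b j)) (Tc a b χ tw Ψ m j)) (s - (i : ℂ) / 2) p) ⊆
      {p : Nat.Primes | ¬ (p : ℕ) ∣ bad N m} := by
    intro p hp hpb
    apply hp
    refine Finset.prod_eq_one fun j _ => ?_
    exact epf_bad _ _ p.2 (hpb.trans (dvd_pow_self _ two_ne_zero))
  rw [← hasProd_subtype_iff_of_mulSupport_subset h4] at h3
  refine h3.congr_fun ?_
  rintro ⟨p, hp⟩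
  simp only [Function.comp_apply]
  rw [← Finset.prod_inv_distrib]
  simp_rw [← Finset.prod_inv_distrib]
  rw [Finset.prod_comm]
  refine Finset.prod_congr rfl fun j _ => ?_
  refine (epf_lf (hab j) h2 (H j) (hq j) (tw j) hm (hck_T (tw := tw) H hQ hm j) ?_ p.2 hp s).symm
  unfold Tc
  cases htw : tw j
  · rfl
  · exact (hQ j).att _ (fun h => hm (sc_sq.1 h))

lemma nice_Z (H : ∀ j, HT (a j) (b j) (q j) (χ j))
    (hQ : ∀ j, QD (kk (a j) (b j)) (xc (cc (a j) (b j)) (χ j)) (D j) (Ψ j)) {m : ZI}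
    (hm : ¬ IsSquare m) (j : J) : Nice (Zf a b q χ tw D Ψ m j) :=
  nice_LP (hck_T H hQ hm j)

lemma diff_U (m : ZI) : Differentiable ℂ (Uf N a b χ tw Ψ m) := by
  have : Uf N a b χ tw Ψ m = fun s => ∏ j, Cq ((bad N m ^ 2 : ℕ) : ZI)
    (psik (kk (a j) (b j)) (Tc a b χ tw Ψ m j)) s := rfl
  rw [this]
  exact Differentiable.fun_finsetProd fun j _ => Cq_diff _ _

lemma U_ne (H : ∀ j, HT (a j) (b j) (q j) (χ j))
    (hQ : ∀ j, QD (kk (a j) (b j)) (xc (cc (a j) (b j)) (χ j)) (D j) (Ψ j)) {m : ZI}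
    (hm : ¬ IsSquare m) {s : ℂ} (hs : 0 < s.re) : Uf N a b χ tw Ψ m s ≠ 0 := by
  unfold Uf
  rw [Finset.prod_ne_zero_iff]
  intro j _
  exact Cq_ne _ (uh_psik (hck_T H hQ hm j)) hs

/-- the continuation -/
theorem isC_all (hab : ∀ j, a j + b j = i) (H : ∀ j, HT (a j) (b j) (q j) (χ j))
    (hQ : ∀ j, QD (kk (a j) (b j)) (xc (cc (a j) (b j)) (χ j)) (D j) (Ψ j))
    (hN : N ≠ 0) (h2 : 2 ∣ N) (hq : ∀ j, q j ∣ (N : ZI)) {m : ZI} (hm : ¬ IsSquare m) :
    IsC i N a b χ tw m (fun s => Gf N a b q χ tw D Ψ m (s - (i : ℂ) / 2)) := by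
  have hZ := nice_Z (tw := tw) H hQ hm
  refine ⟨?_, ?_, fun s hs => euler_all hab H hQ hN h2 hq hm hs⟩
  · intro s hs
    have h1 : s - (i : ℂ) / 2 ≠ 1 := by
      intro h
      apply hs
      linear_combination h
    have h3 : AnalyticAt ℂ (Gf N a b q χ tw D Ψ m) (s - (i : ℂ) / 2) :=
      (Finset.analyticAt_fun_prod _ fun j _ => (hZ j).an _ h1).mul ((diff_U m).analyticAt _)
    exact AnalyticAt.fun_comp (f := fun s : ℂ => s - (i : ℂ) / 2) h3 (by fun_prop)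
  · have h3 : MeromorphicAt (Gf N a b q χ tw D Ψ m)
        ((fun z : ℂ => z - (i : ℂ) / 2) ((i : ℂ) / 2 + 1)) := by
      have : (fun z : ℂ => z - (i : ℂ) / 2) ((i : ℂ) / 2 + 1) = 1 := by
        show (i : ℂ) / 2 + 1 - (i : ℂ) / 2 = 1
        ring
      rw [this]
      exact (MeromorphicAt.fun_prod fun j _ => (hZ j).mer).mul ((diff_U m).analyticAt _).meromorphicAt
    exact MeromorphicAt.comp_analyticAt (f := Gf N a b q χ tw D Ψ m)
      (g := fun z : ℂ => z - (i : ℂ) / 2) h3 (by fun_prop)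

/-- **Main theorem** -/
theorem main_qt (i N : ℕ) (a b : J → ℕ) (q : J → ZI) (χ : J → ZI →* ℂ) (tw : J → Bool)
    (hab : ∀ j, a j + b j = i) (H : ∀ j, HT (a j) (b j) (q j) (χ j)) (htw : ∃ j, tw j = true)
    (hN : N ≠ 0) (h2 : 2 ∣ N) (hq : ∀ j, q j ∣ (N : ZI)) :
    (∀ m : ZI, ¬ IsSquare m → ∃ L : ℂ → ℂ, IsC i N a b χ tw m L ∧
      ((∀ j, a j ≠ b j) → Differentiable ℂ L)) ∧
    ∃ η X0 : ℝ, 0 < η ∧ 10 ≤ X0 ∧
    ∀ L : ZI → ℂ → ℂ, (∀ m : ZI, ¬ IsSquare m → IsC i N a b χ tw m (L m)) →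
    ∀ (X T Y : ℝ), X0 ≤ X → (Real.log X) ^ 2 ≤ T → T ≤ X ^ η → X * Real.log X ≤ Y →
    ∀ S : Finset ZI, NSq Y S →
      (∀ m ∈ S, (zerosI i (L m) T).Finite) ∧
      0.6725 * ∑ m ∈ S, om X m * (NzI i (L m) T : ℝ) ≤ ∑ m ∈ S, om X m * (N₀I i (L m) T : ℝ) ∧
      ((Finset.univ.filter (fun j => tw j = true)).card : ℝ) * (X * T * Real.log X / 7) ≤
        ∑ m ∈ S, om X m * (NzI i (L m) T : ℝ) := by
  classical
  -- the primitive characters
  have hex : ∀ (j : J) (m : ZI), ∃ (d : ZI) (ψ : ZI →* ℂ), ¬ IsSquare m →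
      HCk (kk (a j) (b j)) d ψ ∧ Att (xc (cc (a j) (b j)) (χ j)) m ψ := by
    intro j m
    by_cases hm : IsSquare m
    · exact ⟨1, 1, fun h => absurd hm h⟩
    · obtain ⟨d, ψ, h1, h3⟩ := Pool.Agent.N880.QK.Art.exists_char Pool.Agent.N880.QK.char_main
        Pool.Agent.N880.QI.el_main (H j).hck m hm
      exact ⟨d, ψ, fun _ => ⟨h1, h3⟩⟩
  choose D Ψ hDΨ using hex
  have hQ : ∀ j, QD (kk (a j) (b j)) (xc (cc (a j) (b j)) (χ j)) (D j) (Ψ j) := fun j =>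
    ⟨fun m hm => (hDΨ j m hm).1, fun m hm => (hDΨ j m hm).2⟩
  have hC : ∀ m : ZI, ¬ IsSquare m → IsC i N a b χ tw m
      (fun s => Gf N a b q χ tw D Ψ m (s - (i : ℂ) / 2)) :=
    fun m hm => isC_all hab H hQ hN h2 hq hm
  refine ⟨fun m hm => ⟨_, hC m hm, fun hne => ?_⟩, ?_⟩
  · have h3 : Differentiable ℂ (Gf N a b q χ tw D Ψ m) := by
      refine Differentiable.mul (Differentiable.fun_finsetProd fun j _ => ?_) (diff_U m)
      refine diff_LP (hck_T H hQ hm j) ?_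
      have := hne j
      unfold kk
      omega
    exact h3.comp (differentiable_id.sub_const _)
  · obtain ⟨κ, hκ0, hκ, hfin⟩ := Pool.Agent.N880.QK.fin_all
    have hpart : ∀ j, Part κ (tw j = true) (fun m => Zf a b q χ tw D Ψ m j) := by
      intro j
      cases htj : tw j
      · have e : (fun m => Zf a b q χ tw D Ψ m j) = fun _ => LP (kk (a j) (b j))
            (sc (cc (a j) (b j)) (q j)) (xc (cc (a j) (b j)) (χ j)) := by
          funext m
          unfold Zf Qc Tc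
          rw [htj]
          rfl
        rw [e]
        obtain ⟨C, η1, h1, h3, h4⟩ := part_fix hκ0 (nice_LP (H j).hck)
        refine ⟨C, η1, h1, h3, fun η h5 h6 => ?_⟩
        obtain ⟨X0, h7, h8⟩ := h4 η h5 h6
        refine ⟨X0, h7, fun X T Y h9 h10 h11 h12 S h13 => ?_⟩
        obtain ⟨h14, h15⟩ := h8 X T Y h9 h10 h11 h12 S h13
        exact ⟨h14, fun h => absurd h (by simp)⟩
      · have e : (fun m => Zf a b q χ tw D Ψ m j) = fun m => LP (kk (a j) (b j))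
            (D j (sc (cc (a j) (b j)) m)) (Ψ j (sc (cc (a j) (b j)) m)) := by
          funext m
          unfold Zf Qc Tc
          rw [htj]
          rfl
        rw [e]
        obtain ⟨C, η1, h1, h3, h4⟩ := part_tw hκ0 (by linarith) (q := sc (cc (a j) (b j)) (q j))
          (hfin _ _ _ (H j).hck) (hQ j) (cc (a j) (b j))
        refine ⟨C, η1, h1, h3, fun η h5 h6 => ?_⟩
        obtain ⟨X0, h7, h8⟩ := h4 η h5 h6
        refine ⟨X0, h7, fun X T Y h9 h10 h11 h12 S h13 => ?_⟩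
        obtain ⟨h14, h15⟩ := h8 X T Y h9 h10 h11 h12 S h13
        exact ⟨h14, fun _ => h15 trivial⟩
    obtain ⟨η, X0, hη, hX0, htot⟩ := total hκ (fun j => tw j = true) htw
      (fun j m => Zf a b q χ tw D Ψ m j) hpart
    refine ⟨η, X0, hη, hX0, ?_⟩
    intro L hL X T Y hX hT1 hT2 hY S hS
    have hT4 := T_ge (hX0.trans hX) hT1
    obtain ⟨g1, g2⟩ := htot X T Y hX hT1 hT2 hY S hS
    have key : ∀ m ∈ S, (zerosI i (L m) T).Finite ∧
        (NzI i (L m) T : ℝ) = ∑ j, (NN (Zf a b q χ tw D Ψ m j) T (2 * T) : ℝ) ∧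
        ∑ j, (Ns (Zf a b q χ tw D Ψ m j) T (2 * T) : ℝ) ≤ (N₀I i (L m) T : ℝ) := by
      intro m hmS
      have hm := ((hS m).1 hmS).2
      have hZ := nice_Z (tw := tw) H hQ hm
      have hoff : ∀ s : ℂ, s ≠ (i : ℂ) / 2 + 1 → L m s =
          (fun s => Gf N a b q χ tw D Ψ m (s - (i : ℂ) / 2)) s := by
        refine eq_off (hL m hm).an (hC m hm).an fun s hs => ?_
        have hs' : (i : ℝ) / 2 + 1 < s.re := by
          have : ((i : ℂ) / 2 + 1) = (((i : ℝ) / 2 + 1 : ℝ) : ℂ) := by push_cast; rfl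
          rw [this, Complex.ofReal_re] at hs
          exact hs
        exact ((hL m hm).eul s hs').unique ((hC m hm).eul s hs')
      obtain ⟨c1, c2, c3⟩ := counts_congr hoff (T := T) (by linarith)
      obtain ⟨n1, n2, n3⟩ := NN_prod Finset.univ (fun j => Zf a b q χ tw D Ψ m j)
        (fun j _ => hZ j) (T := T) (by linarith)
      obtain ⟨u1, u2, u3⟩ := counts_unit (F := fun z => ∏ j, Zf a b q χ tw D Ψ m j z)
        (U := Uf N a b χ tw Ψ m)
        (fun s hs => Finset.analyticAt_fun_prod _ fun j _ => (hZ j).an s (im_ne_one hs))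
        (diff_U m) (fun s hs => U_ne H hQ hm hs) (T := T) (by linarith)
      have hG : (fun z => (∏ j, Zf a b q χ tw D Ψ m j z) * Uf N a b χ tw Ψ m z) =
        Gf N a b q χ tw D Ψ m := rfl
      rw [hG] at u1 u2 u3
      refine ⟨?_, ?_, ?_⟩
      · rw [c1, zeros_shiftI i (Gf N a b q χ tw D Ψ m)]
        refine Set.Finite.image _ ?_
        rw [u1]
        exact n3
      · rw [c2, Nz_shiftI i (Gf N a b q χ tw D Ψ m), u2]
        rw [n1]
        push_cast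
        rfl
      · rw [c3, N₀_shiftI i (Gf N a b q χ tw D Ψ m), u3]
        have : ((∑ j, Ns (Zf a b q χ tw D Ψ m j) T (2 * T) : ℕ) : ℝ) ≤
          (cnt (fun z => ∏ j, Zf a b q χ tw D Ψ m j z) (line T (2 * T)) : ℝ) := by exact_mod_cast n2
        refine le_trans (le_of_eq ?_) this
        push_cast
        rfl
    refine ⟨fun m hm => (key m hm).1, ?_, ?_⟩
    · have e1 : ∑ m ∈ S, om X m * (NzI i (L m) T : ℝ) =
          ∑ m ∈ S, om X m * ∑ j, (NN (Zf a b q χ tw D Ψ m j) T (2 * T) : ℝ) :=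
        Finset.sum_congr rfl fun m hm => by rw [(key m hm).2.1]
      rw [e1]
      refine g1.trans ?_
      exact Finset.sum_le_sum fun m hm => mul_le_mul_of_nonneg_left (key m hm).2.2 (om_nonneg X m)
    · refine g2.trans (le_of_eq ?_)
      exact Finset.sum_congr rfl fun m hm => by rw [(key m hm).2.1]

end

end Pool.Agent.Zk20.QT
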