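import Pool.Agent.W164.RC.Imp
import Pool.Agent.W762.EC.Chi
import Pool.Agent.H385R2.DirU
import Pool.Agent.H385R2.LocalD
import Pool.Agent.H385R2.EcD2
import Pool.Agent.H82R3.EK.Count
import Pool.Agent.W354.PK.FinK

/-!
The zeta function of `ℚ(i)` (helper20).
-/

set_option autoImplicit false
set_option maxHeartbeats 4000000

open Complex Filter Topology Set
open H385 (ZI nrm GoodD GoodU good_dirichlet_U zcount_long_D zset_finite_D)
open H370 (zset mult NN Nd Ns)
open Pool.Agent.H304R3.HK (bb ee UH tc)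
open Pool.Agent.W164.RC
open Pool.Agent.W762.EC.Chi (X4 X4_one X4_three X4_ne_one X4_prim X4_apply)
open Pool.Agent.H82R3.EK (cnt strip line mult_prod cnt_prod NN_eq Ns_le)

namespace Pool.Agent.Zk20.QT

/-- a function without zeros near the edge, with finitely many zeros -/
structure Nice (L : ℂ → ℂ) : Prop where
  an : ∀ s : ℂ, s ≠ 1 → AnalyticAt ℂ L s
  mer : MeromorphicAt L 1
  ne : L ⟨2, 1⟩ ≠ 0
  fin : ∀ T : ℝ, 1 ≤ T → (zset L T (2 * T)).Finite
  cnt : ∃ C : ℝ, 0 < C ∧ ∀ T : ℝ, 3 ≤ T → (NN L T (2 * T) : ℝ) ≤ C * (T * Real.log T)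

lemma im_ne_one {s : ℂ} (h : 0 < s.im) : s ≠ 1 := by
  rintro rfl
  simp at h

lemma Nice.top {L : ℂ → ℂ} (h : Nice L) {s : ℂ} (hs : 0 < s.im) : analyticOrderAt L s ≠ ⊤ := by
  have hpre : IsPreconnected {z : ℂ | 0 < z.im} := (convex_halfSpace_im_gt 0).isPreconnected
  exact H370.Loc.order_ne_top (K := {z : ℂ | 0 < z.im}) hpre (fun z hz => h.an z (im_ne_one hz))
    (by norm_num : (⟨2, 1⟩ : ℂ) ∈ {z : ℂ | 0 < z.im}) h.ne hs

lemma log_le {Q T : ℝ} (hQ : 1 ≤ Q) (hT : 3 ≤ T) : Real.log (Q * (2 * T)) ≤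
    (2 + Real.log Q) * Real.log T := by
  have h1 : 1 ≤ Real.log T := by
    rw [Real.le_log_iff_exp_le (by linarith)]
    linarith [Real.exp_one_lt_d9]
  have h2 : 0 ≤ Real.log Q := Real.log_nonneg hQ
  rw [Real.log_mul (by linarith) (by linarith), Real.log_mul (by norm_num) (by linarith)]
  have h3 := Real.log_two_lt_d9
  nlinarith

/-- from the uniform conditions -/
lemma Nice.of_good {d A Q : ℝ} {F : ℂ → ℂ} {a : ℕ → ℂ} (hd : 1 ≤ d) (hA : 1 ≤ A) (hQ : 1 ≤ Q)
    (h : GoodD d A Q F a) (han : ∀ s : ℂ, s ≠ 1 → AnalyticAt ℂ F s) (hmer : MeromorphicAt F 1) :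
    Nice F := by
  refine ⟨han, hmer, h.nzr _ (by norm_num) (by norm_num),
    fun T hT => zset_finite_D hA hQ h T (2 * T) hT, ?_⟩
  obtain ⟨C, hC, hz⟩ := zcount_long_D d A hd hA
  refine ⟨C * (2 + Real.log Q), mul_pos hC (by linarith [Real.log_nonneg hQ]), fun T hT => ?_⟩
  have h1 := hz Q F a hQ h T (2 * T) hT (by linarith)
  refine h1.trans ?_
  have h2 := log_le hQ hT
  calc C * (2 * T - T) * Real.log (Q * (2 * T)) ≤ C * (2 * T - T) * ((2 + Real.log Q) * Real.log T) :=
        mul_le_mul_of_nonneg_left h2 (by apply mul_nonneg hC.le; linarith)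
    _ = _ := by ring

/-- the zeros of a product -/
lemma NN_prod {J : Type*} (S : Finset J) (L : J → ℂ → ℂ) (h : ∀ j ∈ S, Nice (L j)) {T : ℝ} (hT : 1 ≤ T) :
    NN (fun s => ∏ j ∈ S, L j s) T (2 * T) = ∑ j ∈ S, NN (L j) T (2 * T) ∧
    ∑ j ∈ S, Ns (L j) T (2 * T) ≤ cnt (fun s => ∏ j ∈ S, L j s) (line T (2 * T)) ∧
    (zset (fun s => ∏ j ∈ S, L j s) T (2 * T)).Finite := by
  have himS : ∀ s ∈ strip T (2 * T), 0 < s.im := fun s hs => by
    have := hs.2.2.1
    linarith
  have himL : ∀ s ∈ line T (2 * T), 0 < s.im := fun s hs => by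
    have := hs.2.1
    linarith
  refine ⟨?_, ?_, ?_⟩
  · rw [NN_eq, cnt_prod S L (W := strip T (2 * T)) (fun j hj s hs => (h j hj).an s (im_ne_one (himS s hs)))
      (fun j hj s hs => (h j hj).top (himS s hs)) (fun j hj => ?_)]
    · exact Finset.sum_congr rfl fun j _ => (NN_eq _ _ _).symm
    · refine ((h j hj).fin T hT).subset ?_
      rintro s ⟨⟨h1, h2, h3, h4⟩, h5⟩
      exact ⟨h1, h2, h3, h4, h5⟩
  · rw [cnt_prod S L (W := line T (2 * T)) (fun j hj s hs => (h j hj).an s (im_ne_one (himL s hs)))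
      (fun j hj s hs => (h j hj).top (himL s hs)) (fun j hj => ?_)]
    · exact Finset.sum_le_sum fun j hj => Ns_le _ T (2 * T) ((h j hj).fin T hT)
    · refine ((h j hj).fin T hT).subset ?_
      rintro s ⟨⟨h1, h2, h3⟩, h4⟩
      exact ⟨by rw [h1]; norm_num, by rw [h1]; norm_num, h2, h3, h4⟩
  · refine (Set.Finite.biUnion S.finite_toSet (fun j hj => (h j hj).fin T hT)).subset ?_
    rintro s ⟨h1, h2, h3, h4, h5⟩
    obtain ⟨j, hj, h6⟩ := Finset.prod_eq_zero_iff.mp h5
    rw [Set.mem_iUnion₂]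
    exact ⟨j, hj, h1, h2, h3, h4, h6⟩

lemma Nice.prod {J : Type*} (S : Finset J) (L : J → ℂ → ℂ) (h : ∀ j ∈ S, Nice (L j)) :
    Nice (fun s => ∏ j ∈ S, L j s) := by
  refine ⟨fun s hs => Finset.analyticAt_fun_prod _ fun j hj => (h j hj).an s hs,
    MeromorphicAt.fun_prod fun j hj => (h j hj).mer, ?_, fun T hT => (NN_prod S L h hT).2.2, ?_⟩
  · exact Finset.prod_ne_zero_iff.2 fun j hj => (h j hj).ne
  · have h' : ∀ j : J, ∃ C : ℝ, 0 < C ∧ (j ∈ S → ∀ T : ℝ, 3 ≤ T →
        (NN (L j) T (2 * T) : ℝ) ≤ C * (T * Real.log T)) := by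
      intro j
      by_cases hj : j ∈ S
      · obtain ⟨C, h1, h2⟩ := (h j hj).cnt
        exact ⟨C, h1, fun _ => h2⟩
      · exact ⟨1, one_pos, fun h3 => absurd h3 hj⟩
    choose C hC hc using h'
    refine ⟨1 + ∑ j ∈ S, C j, ?_, fun T hT => ?_⟩
    · have := Finset.sum_nonneg fun j (_ : j ∈ S) => (hC j).le
      linarith
    · rw [(NN_prod S L h (by linarith)).1]
      push_cast
      have hlog : 0 ≤ T * Real.log T := mul_nonneg (by linarith) (Real.log_nonneg (by linarith))
      calc ∑ j ∈ S, (NN (L j) T (2 * T) : ℝ) ≤ ∑ j ∈ S, C j * (T * Real.log T) :=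
            Finset.sum_le_sum fun j hj => hc j hj T hT
        _ = (∑ j ∈ S, C j) * (T * Real.log T) := by rw [Finset.sum_mul]
        _ ≤ _ := mul_le_mul_of_nonneg_right (by linarith) hlog

lemma mer_LFunction {n : ℕ} [NeZero n] (χ : DirichletCharacter ℂ n) :
    MeromorphicAt (DirichletCharacter.LFunction χ) 1 := by
  by_cases h : χ = 1
  · subst h
    have h1 : MeromorphicAt (fun s : ℂ => DirichletCharacter.LFunctionTrivChar₁ n s / (s - 1)) 1 := by
      refine MeromorphicAt.div ?_ ?_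
      · exact ((DirichletCharacter.differentiable_LFunctionTrivChar₁ n).analyticAt 1).meromorphicAt
      · exact AnalyticAt.meromorphicAt (by fun_prop)
    refine h1.congr ?_
    filter_upwards [self_mem_nhdsWithin] with s hs
    have hs1 : s - 1 ≠ 0 := sub_ne_zero.mpr hs
    rw [DirichletCharacter.LFunctionTrivChar₁, Function.update_of_ne hs]
    rw [mul_comm, mul_div_assoc, div_self hs1, mul_one]
  · exact ((DirichletCharacter.differentiable_LFunction h).analyticAt 1).meromorphicAt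

lemma nice_dirichlet {n : ℕ} [NeZero n] (χ : DirichletCharacter ℂ n) (hχ : χ.IsPrimitive) :
    Nice (DirichletCharacter.LFunction χ) := by
  obtain ⟨A, hA, hg⟩ := good_dirichlet_U
  have h := hg n χ hχ
  have hn : (1 : ℝ) ≤ n := by exact_mod_cast NeZero.one_le
  have hD : GoodD 1 A (n : ℝ) (DirichletCharacter.LFunction χ)
      (fun k => χ (k : ZMod n) * (ArithmeticFunction.vonMangoldt k : ℂ)) := by
    refine ⟨h.an, h.growth, h.lower, h.nzr, h.nzl, h.symm, ?_, h.ld, ?_⟩
    · intro n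
      rw [one_mul]
      exact h.ha n
    · intro s h1 h2 h3 h4
      rw [one_mul]
      exact h.left s h1 h2 h3 h4
  exact Nice.of_good le_rfl hA hn hD (fun s hs => H370.DL.analyticAt_L hs) (mer_LFunction χ)

/-- the zeta function of `ℚ(i)` -/
noncomputable def ZF (s : ℂ) : ℂ :=
  DirichletCharacter.LFunction (1 : DirichletCharacter ℂ 1) s * DirichletCharacter.LFunction X4 s

lemma nice_ZF : Nice ZF := by
  have h1 : (1 : DirichletCharacter ℂ 1).IsPrimitive := by
    rw [DirichletCharacter.isPrimitive_def, DirichletCharacter.conductor_one]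
  have h := Nice.prod (Finset.univ : Finset Bool)
    (fun b => bif b then DirichletCharacter.LFunction (1 : DirichletCharacter ℂ 1) else
      DirichletCharacter.LFunction X4) (by
        intro b _
        cases b
        · exact nice_dirichlet X4 X4_prim
        · exact nice_dirichlet 1 h1)
  have e : ZF = fun s => ∏ b : Bool, (bif b then DirichletCharacter.LFunction
      (1 : DirichletCharacter ℂ 1) else DirichletCharacter.LFunction X4) s := by
    funext s
    rw [Fintype.prod_bool]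
    rfl
  rw [e]
  exact h

/-- the principal character -/
noncomputable def h1 : ZI →* ℂ := Pool.Agent.W354.PK.psik 0 1

lemma h1_val (z : ZI) : h1 z = if z = 0 then 0 else (1 : ZI →* ℂ) z * (tc z / (‖tc z‖ : ℂ)) ^ 0 := rfl

lemma h1_apply {z : ZI} (hz : z ≠ 0) : h1 z = 1 := by
  rw [h1_val, if_neg hz]
  simp

lemma h1_zero : h1 0 = 0 := by
  rw [h1_val, if_pos rfl]

lemma uh_h1 : UH h1 where
  h0 := h1_zero
  hb a := by
    by_cases ha : a = 0
    · subst ha
      rw [h1_zero]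
      simp
    · rw [h1_apply ha]
      simp
  hi := h1_apply (by decide)

/-- the local factor -/
lemma local_ZF {p : ℕ} (hp : p.Prime) (X : ℂ) :
    1 - bb h1 p * X + ee h1 p * X ^ 2 =
      (1 - X) * (1 - X4 (p : ZMod 4) * X) := by
  by_cases h2 : p = 2
  · subst h2
    have h3 := local_two uh_h1 X
    have e1 : h1 ⟨1, 1⟩ = 1 := h1_apply (by decide)
    rw [e1] at h3
    have e2 : X4 ((2 : ℕ) : ZMod 4) = 0 := by
      rw [X4_apply]
      have : ZMod.χ₄ ((2 : ℕ) : ZMod 4) = 0 := by decide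
      rw [this]
      simp
    rw [h3, e2]
    ring
  · rw [local_poly uh_h1 hp h2]
    have h4 : p % 4 = 1 ∨ p % 4 = 3 := by
      rcases hp.eq_two_or_odd with h | h
      · exact absurd h h2
      · omega
    have hz : ∀ z ∈ Ip p, h1 z = 1 := fun z hz => h1_apply (Ip_spec hp hz).2.1.ne_zero
    rw [Finset.prod_congr rfl fun z hz' => by rw [hz z hz']]
    rcases h4 with h4 | h4
    · obtain ⟨x, hx, -, -, -, hI⟩ := Ip_one hp h4
      have hd : dg p = 1 := by unfold dg; rw [if_pos h4]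
      rw [hI, Finset.prod_pair hx, X4_one h4, hd]
      ring
    · have hd : dg p = 2 := by unfold dg; rw [if_neg (by omega)]
      rw [Ip_three h4, Finset.prod_singleton, X4_three h4, hd]
      ring

/-- the Euler product -/
theorem prod_ZF {q : ZI} (hq : q ≠ 0) (h2 : two2 ∣ q) {s : ℂ} (hs : 1 < s.re) :
    HasProd (fun p : Nat.Primes => epf q h1 s p) (ZF s * Cq q h1 s) := by
  have e1 := DirichletCharacter.LSeries_eulerProduct_hasProd (1 : DirichletCharacter ℂ 1) hs
  have e2 := DirichletCharacter.LSeries_eulerProduct_hasProd X4 hs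
  rw [← DirichletCharacter.LFunction_eq_LSeries _ hs] at e1 e2
  have h3 : HasProd (fun p : Nat.Primes => cp q h1 s p) (Cq q h1 s) := by
    unfold Cq
    apply hasProd_prod_of_ne_finset_one
    intro p hp
    rw [mem_Tq hq] at hp
    exact cp_one h2 p.2 hp h1 s
  have h4 := (e1.mul e2).mul h3
  refine h4.congr_fun ?_
  intro p
  rw [← epf_eq q uh_h1 p.2 (by linarith), local_ZF p.2, mul_inv]
  congr 2
  have : ((1 : DirichletCharacter ℂ 1) ((p : ℕ) : ZMod 1)) = 1 := by
    rw [MulChar.one_apply (isUnit_of_subsingleton _)]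
  rw [this, one_mul]

end Pool.Agent.Zk20.QT
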